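import Pool.Agent.Helper80.AD.Defs

/-!
# Project AD: facts on `Le'`, `hc` and `LNef`.
-/

set_option autoImplicit false

noncomputable section

namespace Pool.Agent.Helper80.AD

variable {B P : Type} {Pr : AddSubgroup (P → ℝ)}

theorem Le'.of_le {f g : P → ℝ} (h : ∀ v, f v ≤ g v) : Le' Pr f g :=
  ⟨1, one_pos, 0, Pr.zero_mem, fun v => by simpa using h v⟩

theorem Le'.refl (f : P → ℝ) : Le' Pr f f := Le'.of_le fun _ => le_rfl

/-- the basic case -/
theorem Le'.of_add {f g p : P → ℝ} (hp : p ∈ Pr) (h : ∀ v, f v + p v ≤ g v) : Le' Pr f g :=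
  ⟨1, one_pos, p, hp, fun v => by simpa using h v⟩

theorem Le'.trans {f g k : P → ℝ} (h₁ : Le' Pr f g) (h₂ : Le' Pr g k) : Le' Pr f k := by
  obtain ⟨m, hm, p, hp, h⟩ := h₁
  obtain ⟨m', hm', p', hp', h'⟩ := h₂
  refine ⟨m * m', Nat.mul_pos hm hm', m' • p + m • p', Pr.add_mem (Pr.nsmul_mem hp _) (Pr.nsmul_mem hp' _), fun v => ?_⟩
  have h1 := mul_le_mul_of_nonneg_left (h v) (Nat.cast_nonneg (α := ℝ) m')
  have h2 := mul_le_mul_of_nonneg_left (h' v) (Nat.cast_nonneg (α := ℝ) m)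
  rw [Pi.add_apply, Pi.smul_apply, Pi.smul_apply, nsmul_eq_mul, nsmul_eq_mul, Nat.cast_mul]
  linarith

theorem Le'.add {f g f' g' : P → ℝ} (h₁ : Le' Pr f g) (h₂ : Le' Pr f' g') :
    Le' Pr (fun v => f v + f' v) (fun v => g v + g' v) := by
  obtain ⟨m, hm, p, hp, h⟩ := h₁
  obtain ⟨m', hm', p', hp', h'⟩ := h₂
  refine ⟨m * m', Nat.mul_pos hm hm', m' • p + m • p', Pr.add_mem (Pr.nsmul_mem hp _) (Pr.nsmul_mem hp' _), fun v => ?_⟩
  have h1 := mul_le_mul_of_nonneg_left (h v) (Nat.cast_nonneg (α := ℝ) m')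
  have h2 := mul_le_mul_of_nonneg_left (h' v) (Nat.cast_nonneg (α := ℝ) m)
  rw [Pi.add_apply, Pi.smul_apply, Pi.smul_apply, nsmul_eq_mul, nsmul_eq_mul, Nat.cast_mul]
  linarith

theorem Le'.sum {ι : Type} (s : Finset ι) {f g : ι → P → ℝ} (h : ∀ i ∈ s, Le' Pr (f i) (g i)) :
    Le' Pr (fun v => ∑ i ∈ s, f i v) (fun v => ∑ i ∈ s, g i v) := by
  classical
  induction s using Finset.induction_on with
  | empty => exact Le'.of_le fun v => by simp
  | insert a s ha ih =>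
    have h1 := (h a (Finset.mem_insert_self a s)).add (ih fun i hi => h i (Finset.mem_insert_of_mem hi))
    simpa only [Finset.sum_insert ha] using h1

/-- multiplication by nonnegative rational numbers -/
theorem Le'.qmul {f g : P → ℝ} (h₁ : Le' Pr f g) {q : ℚ} (hq : 0 ≤ q) :
    Le' Pr (fun v => (q : ℝ) * f v) (fun v => (q : ℝ) * g v) := by
  obtain ⟨m, hm, p, hp, h⟩ := h₁
  refine ⟨m * q.den, Nat.mul_pos hm q.den_pos, q.num.toNat • p, Pr.nsmul_mem hp _, fun v => ?_⟩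
  have hnum : ((q.num.toNat : ℕ) : ℝ) = (q.num : ℝ) := by
    have : ((q.num.toNat : ℤ)) = q.num := Int.toNat_of_nonneg (Rat.num_nonneg.2 hq)
    exact_mod_cast this
  have hq2 : (q : ℝ) * (q.den : ℝ) = (q.num : ℝ) := by
    exact_mod_cast Rat.mul_den_eq_num q
  have hn0 : (0 : ℝ) ≤ q.num := by exact_mod_cast Rat.num_nonneg.2 hq
  have h1 := mul_le_mul_of_nonneg_left (h v) hn0
  rw [Pi.smul_apply, nsmul_eq_mul, Nat.cast_mul, hnum]
  have e1 : (m : ℝ) * q.den * ((q : ℝ) * f v) = q.num * (m * f v) := by rw [← hq2]; ring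
  have e2 : (m : ℝ) * q.den * ((q : ℝ) * g v) = q.num * (m * g v) := by rw [← hq2]; ring
  rw [e1, e2]
  linarith

theorem Le'.nmul {f g : P → ℝ} (h₁ : Le' Pr f g) (n : ℕ) :
    Le' Pr (fun v => (n : ℝ) * f v) (fun v => (n : ℝ) * g v) := by
  have := h₁.qmul (q := n) (Nat.cast_nonneg n)
  simpa using this

theorem Le'.mono {f g f' g' : P → ℝ} (h : Le' Pr f g) (h₁ : ∀ v, f' v ≤ f v) (h₂ : ∀ v, g v ≤ g' v) :
    Le' Pr f' g' := (Le'.of_le h₁).trans (h.trans (Le'.of_le h₂))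

theorem hc_single (h : B → P → ℝ) (b : B) (r : ℝ) (v : P) : hc h (Finsupp.single b r) v = r * h b v := by
  unfold hc
  rw [Finsupp.sum_single_index (by ring)]

theorem hc_zero (h : B → P → ℝ) (v : P) : hc h 0 v = 0 := by
  unfold hc
  rw [Finsupp.sum_zero_index]

theorem hc_add (h : B → P → ℝ) (c c' : B →₀ ℝ) (v : P) : hc h (c + c') v = hc h c v + hc h c' v := by
  classical
  unfold hc
  exact Finsupp.sum_add_index' (fun _ => by ring) fun _ _ _ => by ring

theorem hc_smul (h : B → P → ℝ) (r : ℝ) (c : B →₀ ℝ) (v : P) : hc h (r • c) v = r * hc h c v := by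
  unfold hc
  rw [Finsupp.sum_smul_index' (fun _ => by ring), Finsupp.sum, Finsupp.sum, Finset.mul_sum]
  refine Finset.sum_congr rfl fun b _ => ?_
  rw [smul_eq_mul]
  ring

theorem hc_sum (h : B → P → ℝ) {ι : Type} (s : Finset ι) (c : ι → B →₀ ℝ) (v : P) :
    hc h (∑ i ∈ s, c i) v = ∑ i ∈ s, hc h (c i) v := by
  classical
  induction s using Finset.induction_on with
  | empty => simp [hc_zero]
  | insert a s ha ih => rw [Finset.sum_insert ha, Finset.sum_insert ha, hc_add, ih]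

theorem hc_nonneg (h : B → P → ℝ) (hn : ∀ b v, 0 ≤ h b v) {c : B →₀ ℝ} (hcn : ∀ b, 0 ≤ c b) (v : P) :
    0 ≤ hc h c v := Finset.sum_nonneg fun b _ => mul_nonneg (hcn b) (hn b v)

/-- the sum of `LNef` functions -/
theorem LNef.add {h : B → P → ℝ} {ref : B →₀ ℝ} {u u' : P → ℝ} (h₁ : LNef h Pr ref u) (h₂ : LNef h Pr ref u') :
    LNef h Pr ref (fun v => u v + u' v) := by
  intro ε hε
  obtain ⟨c, hc0, h1, h2⟩ := h₁ (ε / 2) (by positivity)
  obtain ⟨c', hc0', h1', h2'⟩ := h₂ (ε / 2) (by positivity)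
  refine ⟨c + c', fun b => add_nonneg (hc0 b) (hc0' b), ?_, ?_⟩
  · refine (h1.add h1').mono (fun v => le_rfl) fun v => ?_
    rw [hc_add]
  · refine (h2.add h2').mono (fun v => ?_) fun v => ?_
    · rw [hc_add]
    · linarith

theorem LNef.zero {h : B → P → ℝ} {ref : B →₀ ℝ} (hn : ∀ b v, 0 ≤ h b v) (href : ∀ b, 0 ≤ ref b) :
    LNef h Pr ref (fun _ => 0) := by
  intro ε hε
  refine ⟨0, fun b => le_rfl, Le'.of_le fun v => ?_, Le'.of_le fun v => ?_⟩
  · rw [hc_zero]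
  · rw [hc_zero]
    have := hc_nonneg h hn href v
    positivity

theorem LNef.sum {h : B → P → ℝ} {ref : B →₀ ℝ} (hn : ∀ b v, 0 ≤ h b v) (href : ∀ b, 0 ≤ ref b) {ι : Type}
    (s : Finset ι) {u : ι → P → ℝ} (h₁ : ∀ i ∈ s, LNef h Pr ref (u i)) :
    LNef h Pr ref (fun v => ∑ i ∈ s, u i v) := by
  classical
  induction s using Finset.induction_on with
  | empty => simpa using LNef.zero hn href
  | insert a s ha ih =>
    have h2 := (h₁ a (Finset.mem_insert_self a s)).add (ih fun i hi => h₁ i (Finset.mem_insert_of_mem hi))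
    simpa only [Finset.sum_insert ha] using h2

end Pool.Agent.Helper80.AD
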