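import Pool.Agent.Helper80.HD.Stmt

/-!
# Project AD (MP_6af536_nt): the statements.

Higher arithmetic degrees of subvarieties for two classes of rational self-maps of `ℙ^N` with indeterminacy:
the dominant self-maps of the torus `𝔾_m^N` (monomial maps composed with translations) and the regular polynomial
automorphisms of the affine space (e.g. Henon maps).
-/

set_option autoImplicit false

open MvPolynomial Filter Topology

noncomputable section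

namespace Pool.Agent.Helper80.AD

open Pool.Agent.Helper80.HD

/-- the point `(1 : x_1 : … : x_N)` of `ℙ^N` -/
def aff {N : ℕ} (x : Fin N → ℂ) : Fin (N + 1) → ℂ := Fin.cons 1 x

/-- `D_n` is between two positive constant multiples of `b_n` -/
def Cmp (b D : ℕ → ℝ) : Prop := ∃ c₁ c₂ : ℝ, 0 < c₁ ∧ 0 < c₂ ∧ ∀ n, c₁ * b n ≤ D n ∧ D n ≤ c₂ * b n

/-- self-maps of the torus `x ↦ c x^A` -/
def S_TORUS : Prop := ∀ (K : Type) [Field K] [NumberField K] [Algebra K ℂ] (N : ℕ)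
  (A : Matrix (Fin (N + 1)) (Fin (N + 1)) ℤ) (c : Fin (N + 1) → K) (x : ℕ → Fin (N + 1) → ℂ) (k : ℕ),
  A.det ≠ 0 → (∀ i, c i ≠ 0) → (∀ i, x 0 i ≠ 0) →
  (∀ n i, x (n + 1) i = algebraMap K ℂ (c i) * ∏ j, x n j ^ A i j) →
  Algebra.trdeg K (ratioField K (aff (x 0))) = k →
    ∃ α : ℝ, 1 ≤ α ∧
      (∃ (j : ℕ) (l : Fin j → ℂ), j ≤ k + 1 ∧
        (∀ i, (A.map (Int.castRingHom ℂ)).charpoly.IsRoot (l i)) ∧ α = ‖∏ i, l i‖) ∧
      (∃ (r : ℕ) (c₁ c₂ : ℝ), 0 < c₁ ∧ ∀ n : ℕ,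
        c₁ * α ^ n ≤ ((n : ℝ) + 1) ^ r * arithDeg K k (fun n => aff (x n)) n ∧
        arithDeg K k (fun n => aff (x n)) n ≤ c₂ * ((n : ℝ) + 1) ^ r * α ^ n) ∧
      ∀ D : ℕ → ℝ, Cmp (arithDeg K k (fun n => aff (x n))) D →
        Tendsto (fun n : ℕ => D n ^ (1 / (n : ℝ))) atTop (𝓝 α)

/-- regular polynomial automorphisms `p` of the affine space, `q = p⁻¹` -/
def S_AFFINE : Prop := ∀ (K : Type) [Field K] [NumberField K] [Algebra K ℂ] (N : ℕ)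
  (p q : Fin N → MvPolynomial (Fin N) K) (d e : ℕ) (x : ℕ → Fin N → ℂ) (k : ℕ),
  (∀ i, aeval p (q i) = X i) → (∀ i, aeval q (p i) = X i) → 2 ≤ d → 2 ≤ e →
  (∀ i, (p i).totalDegree ≤ d) → (∀ i, (q i).totalDegree ≤ e) →
  (∀ y : Fin N → ℂ, (∀ i, aeval y (homogeneousComponent d (p i)) = 0) →
    (∀ i, aeval y (homogeneousComponent e (q i)) = 0) → y = 0) →
  (∀ n i, x (n + 1) i = aeval (x n) (p i)) →
  Algebra.trdeg K (ratioField K (aff (x 0))) = k →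
    ∃ α : ℝ, 1 ≤ α ∧
      (∃ i j : ℕ, (i + j = k ∨ i + j = k + 1) ∧ α = (d : ℝ) ^ i / (e : ℝ) ^ j) ∧
      (∃ c₁ c₂ : ℝ, 0 < c₁ ∧ ∀ n : ℕ, c₁ * α ^ n ≤ arithDeg K k (fun n => aff (x n)) n ∧
        arithDeg K k (fun n => aff (x n)) n ≤ c₂ * α ^ n) ∧
      ∀ D : ℕ → ℝ, Cmp (arithDeg K k (fun n => aff (x n))) D →
        Tendsto (fun n : ℕ => D n ^ (1 / (n : ℝ))) atTop (𝓝 α)

end Pool.Agent.Helper80.AD
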