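import Pool.Agent.Helper80.HD.Final2
import Pool.Agent.Helper80.AD.Stmt

/-!
# Project AD: from the growth to the limit
-/

set_option autoImplicit false

open Filter Topology

noncomputable section

namespace Pool.Agent.Helper80.AD

open Pool.Agent.Helper80.HD

/-- The limit from the growth. -/
theorem root_of_growth' {b : ℕ → ℝ} {α c C : ℝ} {r : ℕ} (hα : 0 < α) (hc : 0 < c) (hC : 0 < C)
    (h : ∀ n : ℕ, c * α ^ n ≤ ((n : ℝ) + 1) ^ r * b n ∧ b n ≤ C * ((n : ℝ) + 1) ^ r * α ^ n) :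
    Tendsto (fun n : ℕ => b n ^ (1 / (n : ℝ))) atTop (𝓝 α) := by
  have hn1 : ∀ n : ℕ, (0 : ℝ) < ((n : ℝ) + 1) ^ r := fun n => by positivity
  have hlow' : ∀ n : ℕ, c / ((n : ℝ) + 1) ^ r * α ^ n ≤ b n := by
    intro n
    rw [div_mul_eq_mul_div, div_le_iff₀ (hn1 n)]
    linarith [(h n).1]
  have hb0 : ∀ n, 0 ≤ b n := fun n => le_trans (by have := hn1 n; positivity) (hlow' n)
  have hroot : ∀ (d : ℝ) (n : ℕ), 0 ≤ d → n ≠ 0 → (d * α ^ n) ^ (1 / (n : ℝ)) = d ^ (1 / (n : ℝ)) * α := by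
    intro d n hd hn
    rw [Real.mul_rpow hd (by positivity), one_div, Real.pow_rpow_inv_natCast hα.le hn]
  have hpoly : Tendsto (fun n : ℕ => ((n : ℝ) + 1) ^ (1 / (n : ℝ))) atTop (𝓝 1) := by
    have h1 := tendsto_rpow_div_mul_add (1 : ℝ) 1 (-1) (by norm_num)
    have h2 : Tendsto (fun n : ℕ => (n : ℝ) + 1) atTop atTop :=
      tendsto_atTop_add_const_right _ _ tendsto_natCast_atTop_atTop
    have h3 := h1.comp h2
    refine h3.congr fun n => ?_
    show ((n : ℝ) + 1) ^ ((1 : ℝ) / (1 * ((n : ℝ) + 1) + -1)) = _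
    congr 2
    ring
  have hpr : ∀ n : ℕ, (((n : ℝ) + 1) ^ r) ^ (1 / (n : ℝ)) = (((n : ℝ) + 1) ^ (1 / (n : ℝ))) ^ r := by
    intro n
    rw [← Real.rpow_natCast (((n : ℝ) + 1) ^ (1 / (n : ℝ))) r,
      ← Real.rpow_mul (by positivity), ← Real.rpow_natCast ((n : ℝ) + 1) r, ← Real.rpow_mul (by positivity),
      mul_comm (1 / (n : ℝ)) (r : ℝ)]
  have hlow : Tendsto (fun n : ℕ => (c ^ (1 / (n : ℝ)) / (((n : ℝ) + 1) ^ (1 / (n : ℝ))) ^ r) * α) atTop (𝓝 α) := by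
    have := ((Helper60.HD.const_root hc).div (hpoly.pow r) (by simp)).mul_const α
    simpa using this
  have hup : Tendsto (fun n : ℕ => (C ^ (1 / (n : ℝ)) * (((n : ℝ) + 1) ^ (1 / (n : ℝ))) ^ r) * α) atTop (𝓝 α) := by
    have := ((Helper60.HD.const_root hC).mul (hpoly.pow r)).mul_const α
    rwa [one_pow, one_mul, one_mul] at this
  refine tendsto_of_tendsto_of_tendsto_of_le_of_le' hlow hup ?_ ?_
  · filter_upwards [eventually_ne_atTop 0] with n hn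
    rw [← hpr, ← Real.div_rpow hc.le (hn1 n).le, ← hroot _ n (div_nonneg hc.le (hn1 n).le) hn]
    exact Real.rpow_le_rpow (by have := hn1 n; positivity) (hlow' n) (by positivity)
  · filter_upwards [eventually_ne_atTop 0] with n hn
    rw [← hpr, ← Real.mul_rpow hC.le (hn1 n).le, ← hroot _ n (by positivity) hn]
    exact Real.rpow_le_rpow (hb0 n) (h n).2 (by positivity)

/-- the same for comparable sequences -/
theorem limit_of_growth {b : ℕ → ℝ} {α c C : ℝ} {r : ℕ} (hα : 0 < α) (hc : 0 < c) (hC : 0 < C)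
    (h : ∀ n : ℕ, c * α ^ n ≤ ((n : ℝ) + 1) ^ r * b n ∧ b n ≤ C * ((n : ℝ) + 1) ^ r * α ^ n) (D : ℕ → ℝ)
    (hD : Cmp b D) : Tendsto (fun n : ℕ => D n ^ (1 / (n : ℝ))) atTop (𝓝 α) := by
  obtain ⟨c₁, c₂, hc₁, hc₂, hcD⟩ := hD
  refine root_of_growth' (c := c₁ * c) (C := c₂ * C) (r := r) hα (by positivity) (by positivity) fun n => ⟨?_, ?_⟩
  · have h1 := mul_le_mul_of_nonneg_left (h n).1 hc₁.le
    have h2 := mul_le_mul_of_nonneg_left (hcD n).1 (by positivity : (0 : ℝ) ≤ ((n : ℝ) + 1) ^ r)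
    calc c₁ * c * α ^ n = c₁ * (c * α ^ n) := by ring
      _ ≤ c₁ * (((n : ℝ) + 1) ^ r * b n) := h1
      _ = ((n : ℝ) + 1) ^ r * (c₁ * b n) := by ring
      _ ≤ _ := h2
  · have h1 := mul_le_mul_of_nonneg_left (h n).2 hc₂.le
    refine ((hcD n).2.trans h1).trans (le_of_eq ?_)
    ring

end Pool.Agent.Helper80.AD
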