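import Pool.Agent.Helper80.AD.Fin0
import Pool.Agent.Helper80.AD.Root

/-!
# Project AD: assembly for the regular affine automorphisms
-/

set_option autoImplicit false

open MvPolynomial Filter Topology

noncomputable section

namespace Pool.Agent.Helper80.AD

open Pool.Agent.Helper80.HD

/-- a product over `Fin 2`-valued indices -/
theorem prod_two (j : ℕ) (l : Fin j → Fin 2) (a b : ℝ) :
    ∃ s t : ℕ, s + t = j ∧ ∏ i, (![a, b] : Fin 2 → ℝ) (l i) = a ^ s * b ^ t := by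
  induction j with
  | zero => exact ⟨0, 0, rfl, by simp⟩
  | succ j ih =>
    obtain ⟨s, t, hst, h⟩ := ih (fun i => l i.succ)
    rw [Fin.prod_univ_succ, h]
    rcases Fin.exists_fin_two.1 ⟨l 0, rfl⟩ with h0 | h0
    · refine ⟨s + 1, t, by omega, ?_⟩
      rw [h0, Matrix.cons_val_zero, pow_succ]
      ring
    · refine ⟨s, t + 1, by omega, ?_⟩
      rw [h0, Matrix.cons_val_one, Matrix.cons_val_fin_one, pow_succ]
      ring

theorem exists_pow_small {d a ε : ℝ} (hd : 2 ≤ d) (hε : 0 < ε) : ∃ n : ℕ, a / d ^ n ≤ ε := by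
  have h1 : Tendsto (fun n : ℕ => a / d ^ n) atTop (𝓝 0) := by
    have := (tendsto_pow_atTop_nhds_zero_of_lt_one (r := d⁻¹) (by positivity) (inv_lt_one_of_one_lt₀ (by linarith))).const_mul a
    rw [mul_zero] at this
    refine this.congr fun n => ?_
    rw [inv_pow]
    rfl
  exact (h1.eventually (ge_mem_nhds hε)).exists

theorem affine_of (hLOCF : S_LOCF) (hSEQ : S_SEQ) (hABIG : S_ABIG) (hAPX : S_APX) (hEXA : S_EXA)
    (hPLUS : S_PLUS) (hABS : S_ABS) (hEEB : S_EEB)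
    (hSYM : S_SYM) (hDEP : S_DEP) (hRES : S_RES) (hHOM : S_HOM) (hTDG : S_TDG) (hCMP : S_CMP) (hLHD : S_LHD) :
    S_AFFINE := by
  intro K _ _ _ N p q d e x k hpq hqp hd he hdp hdq hreg hx htr
  obtain ⟨Γ, Γ', hΓ, hΓ', hloc⟩ := hLOCF K N p q d e hd he hdp hdq hreg
  obtain ⟨F, hF⟩ : ∃ F, F = ratioField K (aff (x 0)) := ⟨_, rfl⟩
  obtain ⟨y, Z, hZ, hZc, hy, hy'⟩ := hABIG K N p q x F hpq hqp hx hF
  have hd' : (2 : ℝ) ≤ d := by exact_mod_cast hd
  have he' : (2 : ℝ) ≤ e := by exact_mod_cast he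
  have hcst : ∀ v : Place F, 0 ≤ cst F Γ Γ' v := by
    intro v
    unfold cst
    split_ifs
    · exact Real.log_nonneg (hΓ.1 _)
    · linarith
  have hHd : ∀ (v : Place F) (n : ℤ),
      Real.log (vn v.1 (Fin.cons 1 (y n) : Fin (N + 1) → F)) = hV F (Z n) v := by
    intro v n
    unfold hV
    rw [hZ n]
  have hH0 : ∀ (v : Place F) (n : ℤ), 0 ≤ hV F (Z n) v := by
    intro v n
    rw [← hHd]
    refine Real.log_nonneg ?_
    have h1 : v.1 ((Fin.cons 1 (y n) : Fin (N + 1) → F) 0) ≤ vn v.1 (Fin.cons 1 (y n) : Fin (N + 1) → F) :=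
      le_ciSup (f := fun j => v.1 ((Fin.cons 1 (y n) : Fin (N + 1) → F) j)) (Set.finite_range _).bddAbove 0
    rwa [Fin.cons_zero, map_one] at h1
  have hseq : ∀ v : Place F, ∃ θ η : ℝ, 0 ≤ θ ∧ 0 ≤ η ∧ ∀ n : ℕ,
      (d : ℝ) ^ n * θ ≤ hV F (Z n) v + cst F Γ Γ' v ∧ (1 / (e : ℝ)) ^ n * η ≤ hV F (Z n) v + cst F Γ Γ' v ∧
      hV F (Z n) v ≤ (d : ℝ) ^ n * θ + (1 / (e : ℝ)) ^ n * η + 2 * cst F Γ Γ' v ∧
      θ ≤ (hV F (Z n) v + cst F Γ Γ' v) / (d : ℝ) ^ n ∧
      hV F (Z n) v / (d : ℝ) ^ n ≤ θ + (hV F (Z 0) v + 3 * cst F Γ Γ' v) / (d : ℝ) ^ n ∧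
      η ≤ (hV F (Z (-n)) v + cst F Γ Γ' v) / (e : ℝ) ^ n ∧
      hV F (Z (-n)) v / (e : ℝ) ^ n ≤ η + (hV F (Z 0) v + 3 * cst F Γ Γ' v) / (e : ℝ) ^ n := by
    intro v
    refine hSEQ d e (cst F Γ Γ' v) (fun n => hV F (Z n) v) hd' he' (hcst v) (hH0 v) ?_ ?_ ?_
    · intro n
      have h1 := (hloc F (y n) (y (n + 1)) (y (n - 1)) (hy n) (hy' n) v).1
      rw [hHd, hHd] at h1
      exact h1
    · intro n
      have h1 := (hloc F (y n) (y (n + 1)) (y (n - 1)) (hy n) (hy' n) v).2.1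
      rw [hHd, hHd] at h1
      exact h1
    · intro n
      have h1 := (hloc F (y n) (y (n + 1)) (y (n - 1)) (hy n) (hy' n) v).2.2
      rw [hHd, hHd, hHd] at h1
      exact h1
  choose θ η hθ hη hs using hseq
  have hO0 : ∀ (b : Option (BV F N)) (v : Place F), b = none → hO (hV F) (cst F Γ Γ') b v = cst F Γ Γ' v := by
    rintro b v rfl
    rfl
  obtain ⟨ref, href⟩ : ∃ ref : Option (BV F N) →₀ ℝ,
    ref = Finsupp.single (some (Z 0)) 1 + Finsupp.single none 1 := ⟨_, rfl⟩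
  have hcref : ∀ (n : ℤ) (v : Place F), hc (hO (hV F) (cst F Γ Γ'))
      (Finsupp.single (some (Z n)) 1 + Finsupp.single none 1) v = hV F (Z n) v + cst F Γ Γ' v := by
    intro n v
    rw [hc_add, hc_single, hc_single, one_mul, one_mul]
    rfl
  have hlnef : ∀ (w : Place F → ℝ) (D : ℝ) (s : ℕ → ℤ), 2 ≤ D →
      (∀ (v : Place F) (n : ℕ), w v ≤ (hV F (Z (s n)) v + cst F Γ Γ' v) / D ^ n ∧
        hV F (Z (s n)) v / D ^ n ≤ w v + (hV F (Z 0) v + 3 * cst F Γ Γ' v) / D ^ n) →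
      LNef (hO (hV F) (cst F Γ Γ')) (Pr F) ref w := by
    intro w D s hD hw ε hε
    obtain ⟨n, hn⟩ := exists_pow_small (a := 4) hD hε
    have hDn : 0 < D ^ n := by positivity
    refine ⟨(D ^ n)⁻¹ • (Finsupp.single (some (Z (s n))) 1 + Finsupp.single none 1), ?_, ?_, ?_⟩
    · intro b
      classical
      rw [Finsupp.smul_apply, Finsupp.add_apply, Finsupp.single_apply, Finsupp.single_apply, smul_eq_mul]
      have : (0 : ℝ) ≤ (if some (Z (s n)) = b then 1 else 0) + (if none = b then 1 else 0) := by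
        split_ifs <;> norm_num
      positivity
    · refine Le'.of_le fun v => ?_
      rw [hc_smul, hcref, inv_mul_eq_div]
      exact (hw v n).1
    · refine Le'.of_le fun v => ?_
      rw [hc_smul, hcref, href, hcref, inv_mul_eq_div, add_div]
      have h1 := (hw v n).2
      have h2 := hH0 v 0
      have h3 := hcst v
      have h4 : (hV F (Z 0) v + 3 * cst F Γ Γ' v) / D ^ n + cst F Γ Γ' v / D ^ n ≤
          4 / D ^ n * (hV F (Z 0) v + cst F Γ Γ' v) := by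
        rw [← add_div, div_mul_eq_mul_div]
        exact div_le_div_of_nonneg_right (by linarith) hDn.le
      have h5 := mul_le_mul_of_nonneg_right hn (add_nonneg h2 h3)
      linarith
  have hg : LocGrowth F Γ Γ' (fun n : ℕ => Z n) (![θ, η] : Fin 2 → Place F → ℝ) ref
      (![(d : ℝ), 1 / (e : ℝ)] : Fin 2 → ℝ) (fun _ => 2) := by
    have he0 : (0 : ℝ) < 1 / e := by positivity
    refine ⟨?_, ?_, ?_, ?_, fun _ => by norm_num, ?_, ?_⟩
    · intro b
      classical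
      rw [href, Finsupp.add_apply, Finsupp.single_apply, Finsupp.single_apply]
      split_ifs <;> norm_num
    · intro i v
      fin_cases i
      · exact hθ v
      · exact hη v
    · intro i
      fin_cases i
      · exact hlnef θ d (fun n => n) hd' fun v n => ⟨(hs v n).2.2.2.1, (hs v n).2.2.2.2.1⟩
      · exact hlnef η e (fun n => -n) he' fun v n => ⟨(hs v n).2.2.2.2.2.1, (hs v n).2.2.2.2.2.2⟩
    · intro i
      fin_cases i
      · show (0 : ℝ) < d
        linarith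
      · exact he0
    · intro n i
      refine Le'.of_le fun v => ?_
      have h2 := hH0 v n
      have h3 := hcst v
      fin_cases i
      · have h1 := (hs v n).1
        show (d : ℝ) ^ n * θ v ≤ 2 * (hV F (Z n) v + cst F Γ Γ' v)
        linarith
      · have h1 := (hs v n).2.1
        show (1 / (e : ℝ)) ^ n * η v ≤ 2 * (hV F (Z n) v + cst F Γ Γ' v)
        linarith
    · intro n
      refine Le'.of_le fun v => ?_
      have h1 := (hs v n).2.2.1
      rw [Fin.sum_univ_two]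
      show hV F (Z n) v ≤ 2 * ((d : ℝ) ^ n * θ v + (1 / (e : ℝ)) ^ n * η v + cst F Γ Γ' v)
      have h4 : 0 ≤ (d : ℝ) ^ n * θ v := mul_nonneg (by positivity) (hθ v)
      have h5 : 0 ≤ (1 / (e : ℝ)) ^ n * η v := mul_nonneg (by positivity) (hη v)
      linarith
  have hX : (fun n : ℕ => cv (Z n).1) = fun n => aff (x n) := funext hZc
  have hF' : F = ratioField K (cv (Z (0 : ℕ)).1) := by
    rw [hZc 0]
    exact hF
  rw [← hF] at htr
  obtain ⟨α, hα, ⟨j, hj, l, hl⟩, c₁, c₂, hc₁, hc₂, hgr⟩ := fin0 hAPX hEXA hPLUS hABS hEEB hSYM hDEP hRES hHOM hTDG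
    hCMP hLHD (X := fun n : ℕ => Z n) hF' htr hΓ hΓ' hg
  have hgr' : ∀ n : ℕ, c₁ * α ^ n ≤ 2 ^ (k + 1) * arithDeg K k (fun n => aff (x n)) n ∧
      arithDeg K k (fun n => aff (x n)) n ≤ c₂ * 2 ^ (k + 1) * α ^ n ∧
      c₁ ≤ arithDeg K k (fun n => aff (x n)) n := by
    rw [← hX]
    exact hgr
  obtain ⟨s, t, hst, hpr⟩ := prod_two j l d (1 / e)
  have hlow : ∀ n : ℕ, c₁ / 2 ^ (k + 1) * α ^ n ≤ arithDeg K k (fun n => aff (x n)) n := by
    intro n
    rw [div_mul_eq_mul_div, div_le_iff₀ (by positivity)]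
    linarith [(hgr' n).1]
  have h1α : 1 ≤ α := one_le_of_growth (r := 0) hα.le hc₁ (fun n => (hgr' n).2.2) fun n => by
    rw [pow_zero, mul_one]
    exact (hgr' n).2.1
  refine ⟨α, h1α, ⟨s, t, by omega, ?_⟩, ⟨c₁ / 2 ^ (k + 1), c₂ * 2 ^ (k + 1), by positivity, fun n =>
    ⟨hlow n, (hgr' n).2.1⟩⟩, fun D hD => ?_⟩
  · rw [hl, hpr, one_div, inv_pow]
    rfl
  · refine limit_of_growth (c := c₁ / 2 ^ (k + 1)) (C := c₂ * 2 ^ (k + 1)) (r := 0) hα (by positivity)
      (by positivity) (fun n => ⟨?_, ?_⟩) D hD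
    · rw [pow_zero, one_mul]
      exact hlow n
    · rw [pow_zero, mul_one]
      exact (hgr' n).2.1

end Pool.Agent.Helper80.AD
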