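import Pool.Agent.Helper80.AD.Fin0
import Pool.Agent.Helper80.AD.Root

/-!
# Project AD: assembly for the maps of the torus
-/

set_option autoImplicit false

open MvPolynomial Filter Topology

noncomputable section

namespace Pool.Agent.Helper80.AD

open Pool.Agent.Helper80.HD

/-- remove the factors `1` -/
theorem drop_one (P : ℂ → Prop) (j : ℕ) (l : Fin j → ℂ) (h : ∀ i, P (l i) ∨ l i = 1) :
    ∃ (j' : ℕ) (l' : Fin j' → ℂ), j' ≤ j ∧ (∀ i, P (l' i)) ∧ ∏ i, l' i = ∏ i, l i := by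
  induction j with
  | zero => exact ⟨0, l, le_rfl, fun i => i.elim0, rfl⟩
  | succ j ih =>
    obtain ⟨j', l', hj, hP, hpr⟩ := ih (fun i => l i.succ) fun i => h i.succ
    rcases h 0 with h0 | h0
    · refine ⟨j' + 1, Fin.cons (l 0) l', by omega, fun i => ?_, ?_⟩
      · refine Fin.cases ?_ (fun i => ?_) i
        · simpa using h0
        · simpa using hP i
      · rw [Fin.prod_univ_succ, Fin.prod_univ_succ, Fin.cons_zero, ← hpr]
        simp
    · refine ⟨j', l', by omega, hP, ?_⟩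
      rw [Fin.prod_univ_succ, h0, one_mul, hpr]

theorem bl_root {N : ℕ} (A : Matrix (Fin (N + 1)) (Fin (N + 1)) ℤ) {μ : ℂ}
    (h : ((bl A).map (Int.castRingHom ℂ)).charpoly.IsRoot μ) :
    (A.map (Int.castRingHom ℂ)).charpoly.IsRoot μ ∨ μ = 1 := by
  unfold bl at h
  rw [Matrix.fromBlocks_map, Matrix.map_zero _ (map_zero _), Matrix.charpoly_fromBlocks_zero₂₁,
    Polynomial.root_mul, Matrix.map_one _ (map_zero _) (map_one _), Matrix.charpoly_one] at h
  rcases h with h | h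
  · exact Or.inl h
  · right
    have h1 : (μ - 1) ^ Fintype.card (Fin (N + 1)) = 0 := by
      simpa [Polynomial.IsRoot] using h
    exact sub_eq_zero.1 (pow_eq_zero_iff (by simp) |>.1 h1)

theorem torus_of (hLAM : S_LAM) (hTLN : S_TLN) (hTORB : S_TORB) (hTINE : S_TINE) (hAPX : S_APX) (hEXA : S_EXA)
    (hPLUS : S_PLUS) (hABS : S_ABS) (hEEB : S_EEB)
    (hSYM : S_SYM) (hDEP : S_DEP) (hRES : S_RES) (hHOM : S_HOM) (hTDG : S_TDG) (hCMP : S_CMP) (hLHD : S_LHD) :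
    S_TORUS := by
  intro K _ _ _ N A c x k hA hc hx0 hx htr
  obtain ⟨F, hF⟩ : ∃ F, F = ratioField K (aff (x 0)) := ⟨_, rfl⟩
  obtain ⟨X, hXc, hX0, hXn, hXf⟩ := hTORB K N A c x F hA hc hx0 hx hF
  obtain ⟨Γ, Γ', hΓ, hΓ', hc'⟩ := hTINE.2 K (N + 1) c hc
  have hdet : (bl A).det ≠ 0 := by
    unfold bl
    rw [Matrix.det_fromBlocks_zero₂₁, Matrix.det_one, mul_one]
    exact hA
  obtain ⟨r, q, s, C, μ, w, hμ, hL⟩ := hLAM _ (bl A) hdet
  have hcst : ∀ v : Place F, 0 ≤ cst F Γ Γ' v := fun v => (abs_nonneg _).trans (hc' F v 0)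
  have hH0 : ∀ (v : Place F) (n : ℕ), 0 ≤ hV F (X n) v := by
    intro v n
    refine Real.log_nonneg ?_
    have h1 : v.1 ((X n).1 0) ≤ vn v.1 (X n).1 :=
      le_ciSup (f := fun j => v.1 ((X n).1 j)) (Set.finite_range _).bddAbove 0
    rwa [hX0, map_one] at h1
  have hO0 : ∀ (b : Option (BV F (N + 1))) (v : Place F), 0 ≤ hO (hV F) (cst F Γ Γ') b v := by
    intro b v
    cases b with
    | none => exact hcst v
    | some b =>
      refine Real.log_nonneg ?_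
      obtain ⟨j, hj⟩ := b.2.2
      have h1 : v.1 (b.1 j) ≤ vn v.1 b.1 :=
        le_ciSup (f := fun j => v.1 (b.1 j)) (Set.finite_range _).bddAbove j
      rwa [hj, map_one] at h1
  have href : ∀ b, 0 ≤ (Finsupp.single (some (X 0)) 1 + Finsupp.single none 1 : Option (BV F (N + 1)) →₀ ℝ) b := by
    intro b
    classical
    rw [Finsupp.add_apply, Finsupp.single_apply, Finsupp.single_apply]
    split_ifs <;> norm_num
  have hint := hTINE.1 K F N A c Γ Γ' X hΓ hΓ' hc (hc' F) hX0 hXn hXf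
  obtain ⟨K₀, hK₀⟩ : ∃ K₀ : ℕ, K₀ = 2 * (N + 1) * C + 1 := ⟨_, rfl⟩
  have hK1 : (1 : ℝ) ≤ K₀ := by
    rw [hK₀]
    push_cast
    have : (0 : ℝ) ≤ 2 * (N + 1) * C := by positivity
    linarith
  have hn1 : ∀ n : ℕ, (1 : ℝ) ≤ ((n : ℝ) + 1) ^ s := fun n => one_le_pow₀ (by linarith [(Nat.cast_nonneg n : (0 : ℝ) ≤ n)])
  have hg : LocGrowth F Γ Γ' X
      (fun (i : Fin r) v => ∑ j, |∑ s', w i j s' * LL (tor (X 0) c) v s'|)
      (Finsupp.single (some (X 0)) 1 + Finsupp.single none 1)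
      (fun i : Fin r => ‖μ i‖) (fun n => K₀ * ((n : ℝ) + 1) ^ s) := by
    refine ⟨href, fun i v => Finset.sum_nonneg fun j _ => abs_nonneg _, ?_, ?_, ?_, ?_, ?_⟩
    · intro i
      exact LNef.sum hO0 href Finset.univ fun j _ =>
        hTLN K F N (X 0) c Γ Γ' (hX0 0) (hXn 0) hc hΓ hΓ' (hc' F) (w i j)
    · intro i
      exact norm_pos_iff.2 (hμ i).1
    · intro n
      have := hn1 n
      nlinarith
    · intro n i
      refine ((hint n).1.nmul (C * (n + 1) ^ s)).mono (fun v => (hL n _).1 i) fun v => ?_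
      have h1 := hH0 v n
      have h2 := hcst v
      have h3 := hn1 n
      push_cast
      rw [hK₀]
      push_cast
      have h4 : 0 ≤ ((n : ℝ) + 1) ^ s * (hV F (X n) v + cst F Γ Γ' v) := by positivity
      nlinarith
    · intro n
      refine Le'.of_le fun v => ((hint n).2 v).trans ((hL n _).2.trans ?_)
      obtain ⟨S, hS⟩ : ∃ S, S = ∑ i, ‖μ i‖ ^ n * ∑ j, |∑ s', w i j s' * LL (tor (X 0) c) v s'| := ⟨_, rfl⟩
      have hS0 : 0 ≤ S := by
        rw [hS]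
        exact Finset.sum_nonneg fun i _ => mul_nonneg (by positivity) (Finset.sum_nonneg fun j _ => abs_nonneg _)
      rw [← hS]
      have h2 := hcst v
      have h3 := hn1 n
      push_cast
      rw [hK₀]
      push_cast
      have h4 : 0 ≤ ((n : ℝ) + 1) ^ s * S := by positivity
      have h5 : 0 ≤ (2 * ((N : ℝ) + 1) * C + 1) * ((n : ℝ) + 1) ^ s * cst F Γ Γ' v := by positivity
      have h6 : 0 ≤ (2 * (N : ℝ) + 1) * C * (((n : ℝ) + 1) ^ s * S) := by positivity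
      nlinarith
  have hXX : (fun n : ℕ => cv (X n).1) = fun n => aff (x n) := funext hXc
  have hF' : F = ratioField K (cv (X 0).1) := by
    rw [hXc 0]
    exact hF
  rw [← hF] at htr
  obtain ⟨α, hα, ⟨j, hj, l, hl⟩, c₁, c₂, hc₁, hc₂, hgr⟩ := fin0 hAPX hEXA hPLUS hABS hEEB hSYM hDEP hRES hHOM hTDG
    hCMP hLHD hF' htr hΓ hΓ' hg
  rw [hXX] at hgr
  have hK0 : (0 : ℝ) < (K₀ : ℝ) ^ (k + 1) := by positivity
  have hκ : ∀ n : ℕ, ((K₀ : ℝ) * ((n : ℝ) + 1) ^ s) ^ (k + 1) = (K₀ : ℝ) ^ (k + 1) * ((n : ℝ) + 1) ^ (s * (k + 1)) := by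
    intro n
    rw [mul_pow, pow_mul]
  have hlow : ∀ n : ℕ, c₁ / (K₀ : ℝ) ^ (k + 1) * α ^ n ≤
      ((n : ℝ) + 1) ^ (s * (k + 1)) * arithDeg K k (fun n => aff (x n)) n := by
    intro n
    rw [div_mul_eq_mul_div, div_le_iff₀ hK0]
    have h1 := (hgr n).1
    simp only [hκ] at h1
    linarith
  have hup : ∀ n : ℕ, arithDeg K k (fun n => aff (x n)) n ≤
      c₂ * (K₀ : ℝ) ^ (k + 1) * ((n : ℝ) + 1) ^ (s * (k + 1)) * α ^ n := by
    intro n
    have h1 := (hgr n).2.1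
    simp only [hκ] at h1
    refine h1.trans (le_of_eq ?_)
    ring
  have h1α : 1 ≤ α := one_le_of_growth hα.le hc₁ (fun n => (hgr n).2.2) hup
  obtain ⟨j', l', hj', hP, hpr⟩ := drop_one (fun z => (A.map (Int.castRingHom ℂ)).charpoly.IsRoot z) j
    (fun i => μ (l i)) fun i => bl_root A (hμ (l i)).2
  refine ⟨α, h1α, ⟨j', l', by omega, hP, ?_⟩, ⟨s * (k + 1), c₁ / (K₀ : ℝ) ^ (k + 1), c₂ * (K₀ : ℝ) ^ (k + 1),
    by positivity, fun n => ⟨hlow n, hup n⟩⟩, fun D hD => ?_⟩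
  · rw [hl, hpr, norm_prod]
  · exact limit_of_growth hα (by positivity) (by positivity) (fun n => ⟨hlow n, hup n⟩) D hD

end Pool.Agent.Helper80.AD
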