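import Pool.Agent.Helper80.HD.Final2
import Pool.Agent.Helper80.AD.Affine
import Pool.Agent.Helper80.AD.Torus
import Pool.Agent.Helper3.AD.RLOC
import Pool.Agent.Helper20.AD.REL
import Pool.Agent.Helper94.AD.APX
import Pool.Agent.Helper13.AD.EXA
import Pool.Agent.Helper19.AD.PLUS
import Pool.Agent.Helper61.AD.EEM
import Pool.Agent.Helper87.AD.MONO
import Pool.Agent.Helper61.AD.GROW
import Pool.Agent.Helper15.AD.ABS
import Pool.Agent.Helper49.AD.EEB
import Pool.Agent.Helper16.AD.LAM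
import Pool.Agent.Helper77.AD.TLN
import Pool.Agent.Helper9.AD.TORB
import Pool.Agent.Helper55.AD.TINE
import Pool.Agent.Helper42.AD.LOCF
import Pool.Agent.Helper79.AD.SEQ
import Pool.Agent.Helper56.AD.ABIG

/-!
# Project AD: the two theorems
-/

set_option autoImplicit false

open MvPolynomial Filter Topology

noncomputable section

namespace Pool.Agent.Helper80.AD

open Pool.Agent.Helper80.HD

/-- the packets of project HD that are used -/
structure HDFacts : Prop where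
  RES : S_RES
  HOM : S_HOM
  TDG : S_TDG
  SYM : S_SYM
  DEP : S_DEP
  LHD : S_LHD
  CMP : S_CMP
  APX : S_APX

theorem hdFacts : HDFacts := by
  have hGENEX := Pool.Agent.Helper69.HD.genex
  have hGENV := Pool.Agent.Helper34.HD.genv
  have hIND := Pool.Agent.Helper26.HD.ind
  have hKER := Pool.Agent.Helper69.HD.ker
  have hFIN := Pool.Agent.Helper83.HD.fin hIND
  have hRES := Pool.Agent.Helper27.HD.res hGENEX hGENV hIND hKER
  have hHOM := Pool.Agent.Helper3.HD.hom
  have hNF := Pool.Agent.Helper73.HD.nf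
  have hASS := Pool.Agent.Helper70.HD.ass hGENV hFIN hRES hNF
  have hTRZ := Pool.Agent.Helper60.HD.trz hGENV hRES
  have hPTR := Pool.Agent.Helper55.HD.ptr
  have hDEGX := Pool.Agent.Helper86.HD.degx hTRZ hPTR
  have hTDG := Pool.Agent.Helper51.HD.tdg
  have hNFT := Pool.Agent.Helper61.HD.nft hNF
  have hTOWER := Pool.Agent.Helper35.HD.tower hGENEX hIND hFIN hRES hHOM hASS hDEGX hTDG hNF hNFT
  have hSYM := Pool.Agent.Helper35.HD.sym hRES
  have hDEP := dep hTOWER hSYM
  have hGNM := Pool.Agent.Helper61.HD.gnm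
  have hCGA := Pool.Agent.Helper9.HD.cga hGNM
  have hCPI := Pool.Agent.Helper6.HD.cpi hGNM
  have hCDE := Pool.Agent.Helper8.HD.cde
  have hSUP := Pool.Agent.Helper69.HD.sup
  have hTOR := Pool.Agent.Helper79.HD.tor Pool.Agent.Helper94.HD.tor1
  have hEVB := Pool.Agent.Helper83.HD.evb
  have hARC := Pool.Agent.Helper75.HD.arc hTOR hEVB
  have hGEL := Pool.Agent.Helper51.HD.gel hTOR hEVB hGNM
  have hNAH := Pool.Agent.Helper86.HD.nah hNF hGNM
  have hARH := Pool.Agent.Helper3.HD.arh hNF hGNM hGEL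
  have hEXT := Pool.Agent.Helper79.HD.ext
  have hLHD := Pool.Agent.Helper79.HD.lhd hGNM
  have hCMP := Pool.Agent.Helper55.HD.cmp hLHD hGNM hGEL
  have hRLOC := Pool.Agent.Helper3.AD.rloc hNAH hARH hEXT hGNM
  have hREL := Pool.Agent.Helper20.AD.rel hRLOC hTOWER hCGA hCPI hCDE hARC hLHD hGNM hTDG hSUP hRES hNF
  exact ⟨hRES, hHOM, hTDG, hSYM, hDEP, hLHD, hCMP, Pool.Agent.Helper94.AD.apx hREL hSYM hDEP hLHD hGNM⟩

theorem eem' : S_EEM := Pool.Agent.Helper61.AD.eem

theorem abs' : S_ABS :=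
  Pool.Agent.Helper15.AD.abs (Pool.Agent.Helper61.AD.grow eem' (Pool.Agent.Helper87.AD.mono eem'))

theorem affine : S_AFFINE :=
  affine_of (Pool.Agent.Helper42.AD.locf Pool.Agent.Helper27.HD.nul Pool.Agent.Helper32.HD.gam)
    Pool.Agent.Helper79.AD.seq Pool.Agent.Helper56.AD.abig hdFacts.APX Pool.Agent.Helper13.AD.exa
    Pool.Agent.Helper19.AD.plus abs' (Pool.Agent.Helper49.AD.eeb eem') hdFacts.SYM hdFacts.DEP hdFacts.RES
    hdFacts.HOM hdFacts.TDG hdFacts.CMP hdFacts.LHD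

theorem torus : S_TORUS :=
  torus_of Pool.Agent.Helper16.AD.lam Pool.Agent.Helper77.AD.tln Pool.Agent.Helper9.AD.torb
    Pool.Agent.Helper55.AD.tine hdFacts.APX Pool.Agent.Helper13.AD.exa
    Pool.Agent.Helper19.AD.plus abs' (Pool.Agent.Helper49.AD.eeb eem') hdFacts.SYM hdFacts.DEP hdFacts.RES
    hdFacts.HOM hdFacts.TDG hdFacts.CMP hdFacts.LHD

end Pool.Agent.Helper80.AD
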