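import Pool.Agent.Helper80.AD.Defs

/-!
# Project AD (MP_6af536_nt), module 1: abstract multilinear forms.

Every `def S_XXX : Prop` is a packet.  No arithmetic is needed here.  Facts on `Le'`: module `Pool.Agent.Helper80.AD.Le`.
-/

set_option autoImplicit false

open Filter Topology

noncomputable section

namespace Pool.Agent.Helper80.AD

/-- PACKET EXA (2 h): the exact functional.

PROOF.  Notation: `S(Y) = ∑_i D(Y ∘ i.succAbove)` for `Y : Fin (k+1) → B`.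
(1) `deg` with `m = 1`, `a = ![1,-2]` and `a = ![-1,2]`, `b = ![sq b, b]`, `t = 0`, `p = 0` (`h (sq b) = 2 h b`): `D (update z l (sq b)) = 2 D (update z l b)`.  So `D (sq ∘ Z) = 2^k D Z` (change the `k`
slots one after the other) and `S(sq ∘ Y) = 2^k S(Y)`, `S(update Y i (sq (Y i))) ≤ 2 S(Y)`.
(2) `est` with the same data: `|E₀ (cons (sq b) z) - 2 E₀ (cons b z)| ≤ C₁ (D z + ∑_l D(cons (sq b) z ∘ l.succ.succAbove) + ∑_l D(cons b z ∘ l.succ.succAbove)) ≤ 3 C₁ S(cons b z)` (the tuple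
`cons (sq b) z ∘ l.succ.succAbove` is the tuple `cons b z ∘ l.succ.succAbove` with the entry `0` replaced by its `sq`, factor `2` by (1)).  By symmetry the same in every slot: `|E₀ (update Y i (sq (Y i))) - 2 E₀ Y| ≤ C₂ S(Y)`.
(3) The `k + 1` slots one after the other: `|E₀ (sq ∘ Y) - 2^(k+1) E₀ Y| ≤ C₃ S(Y)`.
(4) `e_j(Y) = 2^(-j(k+1)) E₀ (sq^[j] ∘ Y)`: `|e_(j+1) - e_j| ≤ 2^(-(j+1)(k+1)) C₃ S(sq^[j] ∘ Y) = 2^(-(j+1)(k+1)) C₃ 2^(jk) S(Y) ≤ C₃ S(Y) 2^(-j)`.  So `e_j(Y)` converges, `E Y` := the limit, `|E Y - E₀ Y| ≤ 2 C₃ S(Y)`.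
`E ≥ 0` and `E` is symmetric.
(5) `pos`: apply `est` to `sq^[j] ∘ b`, `2^j t`, `2^j p`, `sq^[j] ∘ z` (`h (sq^[j] b) = 2^j h b`): `-(2^j t G 2^(jk) D z + C 2^(jk) (D z + …)) ≤ ∑ a_i E₀ (sq^[j] ∘ cons b_i z)`; divide by `2^(j(k+1))`, `j → ∞`. -/
def S_EXA : Prop := ∀ (k : ℕ) (B P : Type) (h : B → P → ℝ) (cst : P → ℝ) (Pr : AddSubgroup (P → ℝ)) (sq : B → B)
  (E₀ : (Fin (k + 1) → B) → ℝ) (D : (Fin k → B) → ℝ) (G : ℝ), ApxData k h cst Pr sq E₀ D G →
    ∃ (E : (Fin (k + 1) → B) → ℝ) (C : ℝ), ExData k h cst Pr E₀ D G E C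

/-- PACKET PLUS (2 h): constants as elements (`none`).

PROOF.  `E' Y` := `E (Y without the some)` if all `Y i` are `some`; `G * D (the others)` if exactly one `Y i` is `none`; `0` otherwise (e.g. by cases on the cardinality of `{i | Y i = none}`, with `Option.getD · default` to remove the `some`).
`sym`: `symE`, `symD`.  `pos`: let `m, a, b, p, z` be given, `t` := the sum of the `a i` with `b i = none`.  In `ExData.pos`, `ExData.deg` use the index set `Fin (m + 1)` with the coefficients `a' i = a i` if `b i` is `some _`, `a' i = 0` otherwise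
and `a' (last) = 0` (elements `b' i = (b i).getD default`).
(a) all `z l` are `some`: `∑ a_i E' (cons (b_i) z) = ∑ a'_i E (cons (b'_i) z') + t G D z' ≥ 0` (`ExData.pos`).
(b) exactly one `z l` is `none`: the terms with `b_i = none` are `0`, the other ones are `G D (tuple with b_i and the others z)`, and this tuple is a permutation of `update z' l b'_i`: `ExData.deg` and `symD`.
(c) two of the `z l` are `none`: all terms are `0`. -/
def S_PLUS : Prop := ∀ (k : ℕ) (B P : Type) [Nonempty B] (h : B → P → ℝ) (cst : P → ℝ) (Pr : AddSubgroup (P → ℝ))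
  (E₀ : (Fin (k + 1) → B) → ℝ) (D : (Fin k → B) → ℝ) (G : ℝ) (E : (Fin (k + 1) → B) → ℝ) (C : ℝ),
  ExData k h cst Pr E₀ D G E C →
    ∃ E' : (Fin (k + 1) → Option B) → ℝ, MF k (hO h cst) Pr E' ∧
      (∀ Y : Fin (k + 1) → B, E' (fun i => some (Y i)) = E Y) ∧
      (∀ (Y : Fin (k + 1) → B) (i : Fin (k + 1)),
        E' (Function.update (fun j => some (Y j)) i none) = G * D (fun s => Y (i.succAbove s))) ∧
      ∀ (Y : Fin (k + 1) → Option B) (i j : Fin (k + 1)), i ≠ j → Y i = none → Y j = none → E' Y = 0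

/-- PACKET EEM (1.2 h): multilinearity of `EE`.

PROOF.  For every finite set `S` that contains the supports, `EE E c = ∑ J ∈ piFinset (fun _ => S), (∏ j, c j (J j)) * E J` (the additional terms have a factor `0`).  Then `Finset.prod_univ_sum`-type expansions. -/
def S_EEM : Prop := ∀ (k : ℕ) (B : Type) (E : (Fin (k + 1) → B) → ℝ),
  (∀ (ι : Type) [Fintype ι] (t : Fin (k + 1) → ι → ℝ) (c : Fin (k + 1) → ι → B →₀ ℝ),
    EE E (fun j => ∑ i, t j i • c j i) = ∑ I : Fin (k + 1) → ι, (∏ j, t j (I j)) * EE E (fun j => c j (I j))) ∧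
  (∀ b : Fin (k + 1) → B, EE E (fun j => Finsupp.single (b j) 1) = E b) ∧
  ((∀ Y, 0 ≤ E Y) → ∀ c : Fin (k + 1) → B →₀ ℝ, (∀ j b, 0 ≤ c j b) → 0 ≤ EE E c) ∧
  ((∀ (σ : Equiv.Perm (Fin (k + 1))) (Y : Fin (k + 1) → B), E (Y ∘ σ) = E Y) →
    ∀ (σ : Equiv.Perm (Fin (k + 1))) (c : Fin (k + 1) → B →₀ ℝ), EE E (c ∘ σ) = EE E c)

/-- PACKET MONO (2 h; uses EEM): monotonicity.

PROOF.  (1) Let `a : B →₀ ℝ` (any signs), `p ∈ Pr`, `p v ≤ ∑_b a_b h(b) v` for all `v`.  Then `∑_b a_b E (cons b z) ≥ 0` for all `z : Fin k → B`: for `ε > 0` choose rational `r_b ≥ a_b`, `r_b ≤ a_b + ε` on the support; `h ≥ 0`, so `p ≤ ∑ r_b h(b)`; multiply by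
a common denominator `d` (`d • p ∈ Pr`) and use `MF.pos`: `∑ r_b E (cons b z) ≥ 0`; `ε → 0`.
(2) One slot: if `Le' Pr (hc h c) (hc h c')` then `EE E (cons c z) ≤ EE E (cons c' z)` for nonnegative `z : Fin k → B →₀ ℝ`: by EEM `EE E (cons c' z) - EE E (cons c z) = ∑_J (∏ z_j (J_j)) ∑_b (c'_b - c_b) E (cons b J)`, and (1) for
`a = m (c' - c)`.  (3) Replace `c 0, c 1, …` by `c' 0, c' 1, …` one after the other (symmetry of `EE`, EEM). -/
def S_MONO : Prop := ∀ (k : ℕ) (B P : Type) (h : B → P → ℝ) (Pr : AddSubgroup (P → ℝ))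
  (E : (Fin (k + 1) → B) → ℝ), MF k h Pr E → ∀ c c' : Fin (k + 1) → B →₀ ℝ, (∀ j b, 0 ≤ c j b) →
    (∀ j b, 0 ≤ c' j b) → (∀ j, Le' Pr (hc h (c j)) (hc h (c' j))) → EE E c ≤ EE E c'

/-- PACKET GROW (2 h; uses EEM, MONO): intersection numbers of limits.

PROOF.  `β I` := infimum of `EE E c` over the nonnegative `c : Fin (k+1) → B →₀ ℝ` with `Le' Pr (u (I j)) (hc h (c j))` for all `j` (the set is nonempty by `LNef` with `ε = 1`, bounded below by `0`: EEM).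
(a) `β ≥ 0`; (b) is the definition.
(c) Let `q_i` be rational, `q_i ≥ 1 / t_i` (so `q_i > 0`).  As `u_i ≥ 0`: `u_i ≤ q_i t_i u_i`, and `Le' (q_i t_i u_i) (q_i κ hc x)` (`Le'` may be multiplied by positive rational numbers).  So `c_j = (q_(I j) κ) • x` is admissible: `β I ≤ (∏_j q_(I j)) κ^(k+1) EE E (x, …, x)` (EEM).
Let `q_i → 1 / t_i`.
(d) For `ε > 0` let `c_i^ε` be as in `LNef` for `u_i`.  `u_i ≥ 0`, so for rational `q_i ≥ κ t_i`: `κ ∑ t_i u_i ≤ ∑ q_i u_i`, `Le' (∑ q_i u_i) (∑ q_i hc c_i^ε)` and so `Le' (hc x) (hc (∑ q_i c_i^ε))` and MONO, EEM: `EE E (x, …, x) ≤ ∑_I ∏_j q_(I j) EE E (c_(I 0)^ε, …)`.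
Let `q_i → κ t_i`.  For fixed `I` and an admissible `c'`: `Le' (hc c_(I j)^ε) (hc (c'_j + ε ref))`, so `EE E (c_(I j)^ε) ≤ EE E (c'_j + ε ref)` (MONO), a polynomial in `ε` by EEM (index set `Bool` or `Fin 2`), which tends to `EE E c'` for `ε → 0`.
So for every `δ > 0` there is `ε` with `EE E (c_(I j)^ε)_j ≤ β I + δ` for all (finitely many) `I`; `δ → 0`. -/
def S_GROW : Prop := ∀ (k : ℕ) (B P : Type) (h : B → P → ℝ) (Pr : AddSubgroup (P → ℝ))
  (E : (Fin (k + 1) → B) → ℝ), MF k h Pr E →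
  ∀ (ι : Type) [Fintype ι] (u : ι → P → ℝ) (ref : B →₀ ℝ), (∀ b, 0 ≤ ref b) → (∀ i v, 0 ≤ u i v) →
    (∀ i, LNef h Pr ref (u i)) → ∃ β : (Fin (k + 1) → ι) → ℝ, (∀ I, 0 ≤ β I) ∧
      (∀ (I : Fin (k + 1) → ι) (c : Fin (k + 1) → B →₀ ℝ), (∀ j b, 0 ≤ c j b) →
        (∀ j, Le' Pr (u (I j)) (hc h (c j))) → β I ≤ EE E c) ∧
      (∀ (x : B →₀ ℝ) (t : ι → ℝ) (κ : ℝ), (∀ b, 0 ≤ x b) → (∀ i, 0 < t i) → 0 ≤ κ →
        (∀ i, Le' Pr (fun v => t i * u i v) (fun v => κ * hc h x v)) →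
          ∀ I : Fin (k + 1) → ι, (∏ j, t (I j)) * β I ≤ κ ^ (k + 1) * EE E (fun _ => x)) ∧
      ∀ (x : B →₀ ℝ) (t : ι → ℝ) (κ : ℝ), (∀ b, 0 ≤ x b) → (∀ i, 0 < t i) → 0 ≤ κ →
        Le' Pr (hc h x) (fun v => κ * ∑ i, t i * u i v) →
          EE E (fun _ => x) ≤ κ ^ (k + 1) * ∑ I : Fin (k + 1) → ι, (∏ j, t (I j)) * β I

/-- PACKET ABS (1.5 h; uses EEM, GROW): growth of a sequence.

PROOF.  Apply GROW to the family `u'` indexed by `Option ι`, `u' none = cst = h none` (LNef: `c = single none 1`, `ref ≥ 0`), `u' (some i) = u i`.  Let `x̂_n = single (some (x n)) 1 + single none 1`, `hc x̂_n = h(x n) + cst`; `t none = 1`, `t (some i) = lam i ^ n`; `κ' = 2 κ_n`.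
(A) `Le' (t_i u'_i) (κ' hc x̂_n)`: hypothesis for `some i` (and `h, cst ≥ 0`), `cst ≤ 2 κ_n (h + cst)` for `none`.  (B) `Le' (hc x̂_n) (κ' ∑ t_i u'_i)`: `h + cst ≤ κ_n (∑ … + cst) + cst ≤ 2 κ_n (∑ … + cst)`.
If `I i = I j = none`, `i ≠ j`, then `β I ≤ EE E c = 0` for `c_i = c_j = single none 1` and any admissible other entries (every term of `EE E c` has two `none`s).  So `β I > 0` only if at most one `I j` is `none`.  Some `β I > 0`, otherwise `EE E (x̂_0, …) ≤ 0` by (B).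
`α` := maximum of `∏_j lam' (I j)` (`lam' none = 1`) over the `I` with `β I > 0`, attained at `I*`.  If no `I* j` is `none`: `l = I*`, `j = k + 1`; if `I* i = none` exactly: `l = I* ∘ i.succAbove`, `j = k`.  `∏_j t (I j) = (∏_j lam' (I j))^n`.
GROW (c): `α^n β I* ≤ (2 κ_n)^(k+1) EE E (x̂_n)`; GROW (d): `EE E (x̂_n) ≤ (2 κ_n)^(k+1) (∑_I β I) α^n`. -/
def S_ABS : Prop := ∀ (k : ℕ) (X P : Type) (h : X → P → ℝ) (cst : P → ℝ) (Pr : AddSubgroup (P → ℝ))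
  (E : (Fin (k + 1) → Option X) → ℝ), MF k (hO h cst) Pr E →
  (∀ (Y : Fin (k + 1) → Option X) (i j : Fin (k + 1)), i ≠ j → Y i = none → Y j = none → E Y = 0) →
  ∀ (ι : Type) [Fintype ι] (u : ι → P → ℝ) (ref : Option X →₀ ℝ) (lam : ι → ℝ) (x : ℕ → X) (κ : ℕ → ℝ),
    (∀ b, 0 ≤ ref b) → (∀ i v, 0 ≤ u i v) → (∀ i, LNef (hO h cst) Pr ref (u i)) → (∀ i, 0 < lam i) →
    (∀ n, 1 ≤ κ n) →
    (∀ n i, Le' Pr (fun v => lam i ^ n * u i v) (fun v => κ n * (h (x n) v + cst v))) →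
    (∀ n, Le' Pr (fun v => h (x n) v) (fun v => κ n * (∑ i, lam i ^ n * u i v + cst v))) →
    0 < EE E (fun _ => Finsupp.single (some (x 0)) 1 + Finsupp.single none 1) →
      ∃ α : ℝ, 0 < α ∧ (∃ j : ℕ, (j = k ∨ j = k + 1) ∧ ∃ l : Fin j → ι, α = ∏ i, lam (l i)) ∧
        ∃ c₁ c₂ : ℝ, 0 < c₁ ∧ ∀ n : ℕ,
          c₁ * α ^ n ≤ κ n ^ (k + 1) *
            EE E (fun _ => Finsupp.single (some (x n)) 1 + Finsupp.single none 1) ∧
          EE E (fun _ => Finsupp.single (some (x n)) 1 + Finsupp.single none 1) ≤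
            c₂ * κ n ^ (k + 1) * α ^ n

/-- PACKET EEB (1 h; uses EEM): the value at `x + none`.

PROOF.  EEM with `ι = Bool` (or `Fin 2`): `EE = ∑_(J : Fin (k+1) → Bool) E (i ↦ some x or none)`; the terms with two `none`s are `0`; the ones with at most one `none` are the right-hand side. -/
def S_EEB : Prop := ∀ (k : ℕ) (X : Type) (E : (Fin (k + 1) → Option X) → ℝ),
  (∀ (Y : Fin (k + 1) → Option X) (i j : Fin (k + 1)), i ≠ j → Y i = none → Y j = none → E Y = 0) →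
    ∀ x : X, EE E (fun _ => Finsupp.single (some x) 1 + Finsupp.single none 1) =
      E (fun _ => some x) + ∑ i : Fin (k + 1), E (Function.update (fun _ => some x) i none)

end Pool.Agent.Helper80.AD
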