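import Pool.Agent.Helper80.AD.Defs

/-!
# Project AD (MP_6af536_nt), module 2 (the relation for the heights), module 3 (torus), module 4 (affine automorphisms).

Every `def S_XXX : Prop` is a packet.  The packets of project HD (`Pool.Agent.Helper80.HD`) may be used as hypotheses; they are all proved (see `HD/Final2.lean`, theorem `final2`, for the names
of the proofs).
-/

set_option autoImplicit false

open MvPolynomial Filter Topology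

noncomputable section

namespace Pool.Agent.Helper80.AD

open Pool.Agent.Helper80.HD

/-! ## Module 2 -/

/-- PACKET RLOC (1 h; uses S_NAH, S_ARH, S_EXT, S_GNM of HD): the local inequality, summed over the embeddings.  Model: `Pool/Agent/Helper34/HD/LOCB.lean`.

PROOF.  `ω` nonarchimedean: `(Ω, w, ι)` from EXT; for `τ : F' →ₐ[L] Ω` the hypothesis for `v = w ∘ τ ∘ φ` (nonarchimedean, its restriction along `j` is the restriction of `ω` to `K` by `hcomp`); sum over the `[F' : L]` embeddings: `log ω(norm) = ∑_τ log w(τ (φ g))` (`Algebra.norm_eq_prod_embeddings`) and NAH (for `φ ∘ y_i ≠ 0`).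
Archimedean: the same with `Ω = ℂ` (`ι` makes `ℂ` an `L`-algebra) and ARH, `C₁ = c ∑ |a_i|`. -/
def S_RLOC : Prop := ∀ (N m : ℕ) (a : Fin (m + 1) → ℤ), ∃ C₁ : ℝ, 0 ≤ C₁ ∧
  ∀ (K L F' F : Type) [Field K] [Field L] [CharZero L] [Field F'] [Field F] [Algebra K L] [Algebra L F']
    [FiniteDimensional L F'] (φ : F →+* F') (j : K →+* F), (algebraMap L F').comp (algebraMap K L) = φ.comp j →
    ∀ (Γ : AbsoluteValue K ℝ → ℝ) (Γ' : ℝ) (t : ℤ) (g : F) (y : Fin (m + 1) → Fin (N + 1) → F), g ≠ 0 →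
      (∀ i, y i ≠ 0) →
      (∀ v : AbsoluteValue F ℝ, IsNonarchimedean v →
        Real.log (v g) ≤ ∑ i, (a i : ℝ) * Real.log (vn v (y i)) + t * Real.log (Γ (v.comp j.injective))) →
      (∀ ι : F →+* ℂ, Real.log ‖ι g‖ ≤ ∑ i, (a i : ℝ) * Real.log (vn absC (fun l => ι (y i l))) + t * Γ') →
        (∀ ω : AbsoluteValue L ℝ, IsNonarchimedean ω →
          Real.log (ω (Algebra.norm L (φ g))) ≤
            ∑ i, (a i : ℝ) * Real.log (gn ω (normForm L F' (fun l => φ (y i l)))) +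
              (Module.finrank L F' : ℝ) * (t * Real.log (Γ (ω.comp (algebraMap K L).injective)))) ∧
        (∀ ι : L →+* ℂ,
          Real.log (absC (ι (Algebra.norm L (φ g)))) ≤
            ∑ i, (a i : ℝ) * Real.log (gn absC (map ι (normForm L F' (fun l => φ (y i l))))) +
              (Module.finrank L F' : ℝ) * (t * Γ' + C₁))

/-- PACKET REL (3 h; uses RLOC and S_TOWER, S_CGA, S_CPI, S_CDE, S_ARC, S_LHD, S_GNM, S_TDG, S_SUP, S_RES, S_NF of HD): the relation for the heights.  Model (very similar, most lemmas can be copied): `Pool/Agent/Helper67/HD/KQ.lean`.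

PROOF.  `𝒫_i = cyc K F (y_i, z)`.  TOWER: `u`, `δ = [F' : L]`, `sub u 𝒫_i = C A_i · normForm ỹ_i`, `ỹ_i = toE (nrm y_i q_i)` (`y_i (q_i) ≠ 0`), `bdeg 0 𝒫_i = δ`.  With `φ : F → F'` the inclusion, `φ ∘ y_i = φ(y_i q_i) ỹ_i`, so `normForm (φ ∘ y_i) = C(norm φ(y_i q_i)) normForm ỹ_i` (NF (4)).
Let `κ = norm(φ g) ∏_i (A_i / norm φ(y_i q_i))^{a_i} ∈ L^*` (zpow).  RLOC: for nonarchimedean `ω`
(*) `log ω(κ) ≤ ∑ a_i log gn ω (sub u 𝒫_i) + δ t log Γ(ω|K)`.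
`ω ∈ PiAbs`: the right-hand side is `0` (RES, `Γ = 1`), so `κ = aeval u R`, `0 ≠ R` (CPI).  Degree valuations (CDE, SUP): `bdeg l R ≤ ∑ a_i bdeg l.succ 𝒫_i`: second claim.
Gauss extensions (CGA): `log gn v (up R) ≤ ∑ a_i log gn v 𝒫_i + δ t log Γ(v)`.  Infinite places: `ι` from ARC for the `m + 2` polynomials `𝒫_i`, `up R` (ARC with `q = m + 2`): the same with `δ (t Γ' + C₁) + c₀ (1 + D) (1 + ∑ |a_i|)`, `D ≤ (1 + ∑|a_i|) S`, `S = bdeg 0 𝒫_0 + ∑_i ∑_l bdeg l.succ 𝒫_i ≥ 1`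
(TDG: `totalDegree ≤ ∑ bdeg`; `totalDegree (up R) ≤ ∑_l bdeg l R ≤ ∑|a_i| S`).
Sum over all places, `lh (up R) ≥ 0` (LHD): `0 ≤ ∑ a_i lh 𝒫_i + δ t gt + C S`, where `gt = card(archAbsVal) Γ' + ∑ᶠ log Γ(v)`; `C` depends only on `K, M, k, m, a`.
(`cst F Γ Γ' v` is `log Γ(v|K)` for nonarchimedean `v`, and `Γ'` for `v = ‖ι ·‖`, which is not nonarchimedean because of `v 2 = 2`.  `hV F b v = log (vn v b)`; for `v = ‖ι ·‖` it is `log (vn absC (ι ∘ b))`.) -/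
def S_REL : Prop := ∀ (K : Type) [Field K] [NumberField K] [Algebra K ℂ] (M k m : ℕ) (a : Fin (m + 1) → ℤ),
  ∃ C : ℝ, 0 ≤ C ∧ ∀ (F : IntermediateField K ℂ) (Γ : AbsoluteValue K ℝ → ℝ) (Γ' : ℝ) (t : ℤ)
    (z : Fin k → BV F M) (y : Fin (m + 1) → BV F M) (g : F), F.FG → Algebra.trdeg K F = k → GoodGam K Γ → 0 ≤ Γ' →
    g ≠ 0 → (∀ v : Place F, Real.log (v.1 g) ≤ ∑ i, (a i : ℝ) * hV F (y i) v + t * cst F Γ Γ' v) →
      -(t * gt K Γ Γ' * (bd F 0 (Fin.cons (y 0) z : Fin (k + 1) → BV F M) : ℝ) +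
          C * ((bd F 0 (Fin.cons (y 0) z : Fin (k + 1) → BV F M) : ℝ) +
            ∑ i, ∑ l : Fin k, (bd F l.succ (Fin.cons (y i) z : Fin (k + 1) → BV F M) : ℝ))) ≤
        ∑ i, (a i : ℝ) * E₀ F (Fin.cons (y i) z : Fin (k + 1) → BV F M) ∧
      ∀ l : Fin k, 0 ≤ ∑ i, (a i : ℝ) * (bd F l.succ (Fin.cons (y i) z : Fin (k + 1) → BV F M) : ℝ)

/-- PACKET APX (2 h; uses REL and S_SYM, S_DEP, S_LHD, S_GNM of HD): the approximate data of the field `F`.  Model for the degrees: `recData`, `bdeg_eq`, `bdeg_swap`, `symD` in `Pool/Agent/Helper80/HD/Final.lean`.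

PROOF.  `sq y = (y_j²)_j`: over `F`, one coordinate is `1`; `F` is algebraic over `K(y²)`, because `K(y)` is (the ratios `r` satisfy `r² ∈ K(y²)`).  `h (sq y) = 2 h y` (`vn v (y²) = (vn v y)²`).  `h ≥ 0` as some coordinate is `1`.  Let `y₀ : BV F M` (nonempty), `D Z = bd F 0 (Fin.cons y₀ Z)`; `bd F i Y = D (Y ∘ i.succAbove)` by
DEP, SYM as in `bdeg_eq`.  `symE`, `symD`: SYM.  `E0`: LHD.  `D1`: DEP.  `est`, `deg`: REL (an element `p ∈ Pr F` is `log v(g)`). -/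
def S_APX : Prop := ∀ (K : Type) [Field K] [NumberField K] [Algebra K ℂ] (F : IntermediateField K ℂ) (k M : ℕ)
  (Γ : AbsoluteValue K ℝ → ℝ) (Γ' : ℝ) [Nonempty (BV F M)], F.FG → Algebra.trdeg K F = k → GoodGam K Γ → 0 ≤ Γ' →
    ∃ (sq : BV F M → BV F M) (D : (Fin k → BV F M) → ℝ),
      ApxData k (hV F) (cst F Γ Γ') (Pr F) sq (E₀ F) D (gt K Γ Γ') ∧
        ∀ (Y : Fin (k + 1) → BV F M) (i : Fin (k + 1)), (bd F i Y : ℝ) = D (fun s => Y (i.succAbove s))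

/-! ## Module 3: the torus -/

/-- PACKET LAM (2 h): linear algebra.

PROOF.  Over `ℂ`: `ℂ^σ = ⊕_μ V_μ`, generalized eigenspaces of `B`, `μ ≠ 0` as `det B ≠ 0`; projections `π_μ` (linear, commute with `B`), `∑ π_μ = 1`.  On `V_μ`: `‖B^n w‖ ≤ C (n+1)^s |μ|^n ‖w‖` (binomial expansion of `(μ + (B - μ))^n`, `s = card σ`), and the same for `B^{-n}` (eigenvalue `μ⁻¹`), so `|μ|^n ‖w‖ ≤ C (n+1)^s ‖B^n w‖`.
`w i j` are the real and imaginary parts of the rows of the matrix of `π_μ` (`i ↔ μ`, `q = 2 card σ`; enumerate): `∑_j |⟨w_ij, L⟩| = ‖π_μ L‖` in the norm `∑ (|Re| + |Im|)`.  Then `|μ|^n ‖π_μ L‖ ≤ C (n+1)^s ‖B^n π_μ L‖ = C (n+1)^s ‖π_μ B^n L‖ ≤ C' (n+1)^s ‖B^n L‖` and `‖B^n L‖ ≤ ∑_μ ‖B^n π_μ L‖ ≤ C ∑_μ (n+1)^s |μ|^n ‖π_μ L‖`.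
`C` is a natural number (enlarge it).  Estimates for powers on generalized eigenspaces were proved in project HD: `Pool/Agent/Helper80/HD/Growth.lean`. -/
def S_LAM : Prop := ∀ (σ : Type) [Fintype σ] [DecidableEq σ] (B : Matrix σ σ ℤ), B.det ≠ 0 →
  ∃ (r q s C : ℕ) (μ : Fin r → ℂ) (w : Fin r → Fin q → σ → ℝ),
    (∀ i, μ i ≠ 0 ∧ (B.map (Int.castRingHom ℂ)).charpoly.IsRoot (μ i)) ∧ ∀ (n : ℕ) (L : σ → ℝ),
      (∀ i, ‖μ i‖ ^ n * ∑ j, |∑ s', w i j s' * L s'| ≤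
        (C * (n + 1) ^ s : ℕ) * ∑ s', |∑ s'', ((B ^ n) s' s'' : ℝ) * L s''|) ∧
      ∑ s', |∑ s'', ((B ^ n) s' s'' : ℝ) * L s''| ≤
        (C * (n + 1) ^ s : ℕ) * ∑ i, ‖μ i‖ ^ n * ∑ j, |∑ s', w i j s' * L s'|

/-- the elements `x_1, …, x_N, c_1, …, c_N` of `F` for the vector `b = (1 : x_1 : …)` -/
def tor {K : Type} [Field K] [Algebra K ℂ] {F : IntermediateField K ℂ} {N : ℕ} (b : BV F (N + 1))
    (c : Fin (N + 1) → K) : Fin (N + 1) ⊕ Fin (N + 1) → F :=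
  Sum.elim (fun j => b.1 j.succ) fun j => algebraMap K F (c j)

/-- the character `ξ ↦ ∏_s ξ_s ^ w_s` -/
def chr {R σ : Type} [Field R] [Fintype σ] (ξ : σ → R) (w : σ → ℤ) : R := ∏ s, ξ s ^ w s

/-- the vector of the logarithms -/
def LL {K : Type} [Field K] [Algebra K ℂ] {F : IntermediateField K ℂ} {σ : Type} (ξ : σ → F) (v : Place F)
    (s : σ) : ℝ := Real.log (v.1 (ξ s))

/-- the matrix of `(x, c) ↦ (c x^A, c)` -/
def bl {N : ℕ} (A : Matrix (Fin (N + 1)) (Fin (N + 1)) ℤ) :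
    Matrix (Fin (N + 1) ⊕ Fin (N + 1)) (Fin (N + 1) ⊕ Fin (N + 1)) ℤ := Matrix.fromBlocks A 1 0 1

/-- PACKET TLN (2 h): the functions `|⟨w, L⟩|` are limits.

PROOF.  First (field theory): if `w' : σ → ℤ` has `w' (inl 0) ≠ 0` then `y = (1 : χ^{w'} : x_2 : … : x_(N+1))` (the vector `x₀` with the coordinate `x_1` replaced by `χ^{w'} = chr (tor x₀ c) w'`) is in `BV F (N + 1)`: `x_1 ^ (w' (inl 0)) ∈ K(y)` as the other factors of `χ^{w'}` are in `K(y)`, so `x_1` is algebraic over `K(y)`, and `F` is algebraic over `K(x₀) = K(x_1, …)`.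
Let `ε > 0`, `Q` a large natural number, `w'` integral with `|w' s - Q w s| ≤ 1` for all `s` and `w' (inl 0) ≠ 0`.  `H_0 = hV x₀ v`, `ℓ = ⟨w', L⟩ = log v(χ^{w'}) ∈ Pr`, `L_j = log v(x_j)`.  `hV y v = max(0, ℓ, L_2, …) ∈ [ℓ⁺, ℓ⁺ + H_0]`, `2 ℓ⁺ = |ℓ| + ℓ`, `| |ℓ| - Q |⟨w, L⟩| | ≤ ‖L‖₁`,
`‖L‖₁ = ∑_j |L_j| + ∑_j |log v(c_j)| ≤ 2 (N+1) H_0 - ∑_j L_j + (N+1) cst` (`|L_j| = 2 L_j⁺ - L_j`, `L_j⁺ ≤ H_0`), `∑ L_j ∈ Pr`.  Let `c = (2/Q) y + (2(N+1)/Q) x₀ + ((N+1)/Q) none`.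
`Q |⟨w,L⟩| + (ℓ + ∑ L_j) ≤ |ℓ| + ‖L‖₁ + ℓ + ∑ L_j ≤ 2 ℓ⁺ + 2 (N+1) H_0 + (N+1) cst ≤ Q hc c`; and `Q hc c ≤ 2 ℓ⁺ + 2 H_0 + 2 (N+1) H_0 + (N+1) cst ≤ Q |⟨w,L⟩| + ‖L‖₁ + ℓ + …  ≤ Q |⟨w,L⟩| + (ℓ - ∑ L_j) + (4N + 6) H_0 + 2 (N+1) cst`, and `(4N+6)/Q ≤ ε`.  (`Le'` with `m = Q`.) -/
def S_TLN : Prop := ∀ (K : Type) [Field K] [NumberField K] [Algebra K ℂ] (F : IntermediateField K ℂ) (N : ℕ)
  (x₀ : BV F (N + 1)) (c : Fin (N + 1) → K) (Γ : AbsoluteValue K ℝ → ℝ) (Γ' : ℝ), x₀.1 0 = 1 → (∀ j, x₀.1 j ≠ 0) →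
    (∀ j, c j ≠ 0) → GoodGam K Γ → 1 ≤ Γ' →
    (∀ (v : Place F) (j : Fin (N + 1)), |Real.log (v.1 (algebraMap K F (c j)))| ≤ cst F Γ Γ' v) →
      ∀ w : Fin (N + 1) ⊕ Fin (N + 1) → ℝ, LNef (hO (hV F) (cst F Γ Γ')) (Pr F)
        (Finsupp.single (some x₀) 1 + Finsupp.single none 1)
        (fun v => |∑ s, w s * LL (tor x₀ c) v s|)

/-- PACKET TORB (1.5 h): the orbit in the torus.

PROOF.  `x_(n+1) i = c_i ∏_j x_n j ^ A i j`, so with `ξ = (x_0, c)`, `x_n i = ∏_s ξ_s ^ ((bl A)^n (inl i) s)` (induction on `n`: `(bl A)^(n+1) = (bl A) * (bl A)^n`; the rows `inr` of `(bl A)^n` are the unit vectors).  All `x_n i ≠ 0`, in `F = K(x_0)` (the ratios of `aff (x 0)` are `x_i`, `1/x_i`, `x_i/x_j`).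
`F` is algebraic over `K(x_n)`: `det (bl A)^n = (det A)^n ≠ 0`; with `adj` the adjugate of `(bl A)^n`: `ξ_s ^ det = ∏_(s') (ξ^((bl A)^n))_(s') ^ adj s s'`, and `(ξ^((bl A)^n))_(inl i) = x_n i`, `(…)_(inr i) = c_i ∈ K`; so `(x_0 i)^(det) ∈ K(x_n)`. -/
def S_TORB : Prop := ∀ (K : Type) [Field K] [NumberField K] [Algebra K ℂ] (N : ℕ)
  (A : Matrix (Fin (N + 1)) (Fin (N + 1)) ℤ) (c : Fin (N + 1) → K) (x : ℕ → Fin (N + 1) → ℂ)
  (F : IntermediateField K ℂ), A.det ≠ 0 → (∀ i, c i ≠ 0) → (∀ i, x 0 i ≠ 0) →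
  (∀ n i, x (n + 1) i = algebraMap K ℂ (c i) * ∏ j, x n j ^ A i j) → F = ratioField K (aff (x 0)) →
    ∃ X : ℕ → BV F (N + 1), (∀ n, cv (X n).1 = aff (x n)) ∧ (∀ n, (X n).1 0 = 1) ∧ (∀ n j, (X n).1 j ≠ 0) ∧
      ∀ n i, (X n).1 (Fin.succ i) = chr (tor (X 0) c) ((bl A ^ n) (Sum.inl i))

/-- PACKET TINE (1.2 h): the local inequalities for the orbit in the torus.

PROOF.  `(bl A ^ n) (inr j) s = [s = inr j]`, so the sum over `s' = inl i` is `∑_i |log v(x_n i)|` and the one over `s' = inr j` is `∑_j |log v(c_j)| ≤ (N+1) cst`.  `hV (X n) v = max(0, log v(x_n 1), …)`.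
(1) `|ℓ| = 2 ℓ⁺ - ℓ ≤ 2 hV - ℓ` for `ℓ = log v(x_n i)`; `p = ∑_i log v(x_n i) ∈ Pr`.  (2) `max(0, ℓ_i) ≤ ∑ |ℓ_i|`.  (3) for a finite family of elements of `K^*`: `Γ v = max(1, v(c_j), v(c_j)⁻¹)` (over all `j`), `Γ' = 1 + ∑_(j, σ) |log ‖σ c_j‖|` over the embeddings `σ` of `K`; `GoodGam`: almost all finite `v` have `v(c_j) = 1` (see
`Pool/Agent/Helper32/HD/GAM.lean`). -/
def S_TINE : Prop :=
  (∀ (K : Type) [Field K] [NumberField K] [Algebra K ℂ] (F : IntermediateField K ℂ) (N : ℕ)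
    (A : Matrix (Fin (N + 1)) (Fin (N + 1)) ℤ) (c : Fin (N + 1) → K) (Γ : AbsoluteValue K ℝ → ℝ) (Γ' : ℝ)
    (X : ℕ → BV F (N + 1)), GoodGam K Γ → 1 ≤ Γ' → (∀ j, c j ≠ 0) →
    (∀ (v : Place F) (j : Fin (N + 1)), |Real.log (v.1 (algebraMap K F (c j)))| ≤ cst F Γ Γ' v) →
    (∀ n, (X n).1 0 = 1) → (∀ n j, (X n).1 j ≠ 0) →
    (∀ n i, (X n).1 (Fin.succ i) = chr (tor (X 0) c) ((bl A ^ n) (Sum.inl i))) → ∀ n : ℕ,
      Le' (Pr F) (fun v => ∑ s', |∑ s'', ((bl A ^ n) s' s'' : ℝ) * LL (tor (X 0) c) v s''|)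
        (fun v => (2 * (N + 1) : ℕ) * (hV F (X n) v + cst F Γ Γ' v)) ∧
      ∀ v : Place F, hV F (X n) v ≤ ∑ s', |∑ s'', ((bl A ^ n) s' s'' : ℝ) * LL (tor (X 0) c) v s''|) ∧
  ∀ (K : Type) [Field K] [NumberField K] (r : ℕ) (c : Fin r → K), (∀ j, c j ≠ 0) →
    ∃ (Γ : AbsoluteValue K ℝ → ℝ) (Γ' : ℝ), GoodGam K Γ ∧ 1 ≤ Γ' ∧
      ∀ [Algebra K ℂ] (F : IntermediateField K ℂ) (v : Place F) (j : Fin r),
        |Real.log (v.1 (algebraMap K F (c j)))| ≤ cst F Γ Γ' v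

/-! ## Module 4: affine automorphisms -/

/-- PACKET LOCF (2.5 h; uses S_NUL, S_GAM, S_GNM of HD): the local inequalities for a regular automorphism.

Here `H y = log (vn v (1, y))`.
PROOF.  Let `P_i`, `Q_i ∈ K[X_0, …, X_N]` be the homogenizations of `p_i`, `q_i` to the degrees `d`, `e` (`∑_s coeff_s X_0^(d - |s|) ∏ X_j^(s_j)`).  `P_i(1, y) = p_i(y)`, `P_i(0, y) = (homogeneousComponent d p_i)(y)`, `P_i(λ Y) = λ^d P_i(Y)`.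
For every `j : Fin (N + 1)` the polynomials `X_0`, `P_i`, `Q_i`, `X_j - 1` have no common zero in `ℂ^(N+1)` (by the regularity hypothesis a common zero of the first ones is `0`), so by NUL: `1 = A_j X_0 + ∑_i A_ij P_i + ∑_i B_ij Q_i + C_j (X_j - 1)` over `K`.
Let `Γ₀, Γ₀'` be the constants of GAM for the finitely many polynomials `P_i, Q_i, A_j, A_ij, B_ij`; `Γ = Γ₀²` (or `Γ₀³`), `Γ' = log` of a large constant such as `(2N + 2) Γ₀'^2`, plus `1`.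
Let `Y = (1, y)`, `R = v(Y_j) = vn v Y` (maximal), `ỹ = Y / Y_j`, all `v(ỹ_i) ≤ 1`, `ỹ_j = 1`.
(1) `v(p_i(y)) = R^d v(P_i(ỹ)) ≤ Γ₀ R^d`: `H(p(y)) ≤ d H(y) + cst`; the same for `q`.
(2) `1 = A_j(ỹ) ỹ_0 + ∑ A_ij(ỹ) P_i(ỹ) + ∑ B_ij(ỹ) Q_i(ỹ)`, so one of the summands has absolute value `≥ 1` (nonarchimedean), resp. `≥ 1/(2N+1)`: `R⁻¹ = v(ỹ_0) ≥ 1/Γ₀` or `v(p_i(y)) R^(-d) ≥ 1/Γ₀` or `v(q_i(y)) R^(-e) ≥ 1/Γ₀` for some `i`: `H(y) ≤ log Γ₀` or `d H(y) ≤ H(p(y)) + log Γ₀` or `e H(y) ≤ H(q(y)) + log Γ₀`.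
(`cst F Γ Γ' v` is `log Γ(v|K)` for nonarchimedean `v` and `Γ'` otherwise.  Apply GAM with `Ω = F`, `w = v`, `ι = algebraMap K F`, resp. with `K → F → ℂ`.) -/
def S_LOCF : Prop := ∀ (K : Type) [Field K] [NumberField K] [Algebra K ℂ] (N : ℕ)
  (p q : Fin N → MvPolynomial (Fin N) K) (d e : ℕ), 2 ≤ d → 2 ≤ e → (∀ i, (p i).totalDegree ≤ d) →
  (∀ i, (q i).totalDegree ≤ e) →
  (∀ y : Fin N → ℂ, (∀ i, aeval y (homogeneousComponent d (p i)) = 0) →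
    (∀ i, aeval y (homogeneousComponent e (q i)) = 0) → y = 0) →
    ∃ (Γ : AbsoluteValue K ℝ → ℝ) (Γ' : ℝ), GoodGam K Γ ∧ 1 ≤ Γ' ∧
      ∀ (F : IntermediateField K ℂ) (y yp yq : Fin N → F), (∀ i, yp i = aeval y (p i)) →
        (∀ i, yq i = aeval y (q i)) → ∀ v : Place F,
          Real.log (vn v.1 (Fin.cons 1 yp : Fin (N + 1) → F)) ≤
            d * Real.log (vn v.1 (Fin.cons 1 y : Fin (N + 1) → F)) + cst F Γ Γ' v ∧
          Real.log (vn v.1 (Fin.cons 1 yq : Fin (N + 1) → F)) ≤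
            e * Real.log (vn v.1 (Fin.cons 1 y : Fin (N + 1) → F)) + cst F Γ Γ' v ∧
          Real.log (vn v.1 (Fin.cons 1 y : Fin (N + 1) → F)) ≤
            max (Real.log (vn v.1 (Fin.cons 1 yp : Fin (N + 1) → F)) / d)
              (Real.log (vn v.1 (Fin.cons 1 yq : Fin (N + 1) → F)) / e) + cst F Γ Γ' v

/-- PACKET SEQ (1.5 h): real sequences.

PROOF.  `H n / d^n + (c/(d-1)) / d^n` is nonincreasing in `n` and bounded below, so `θ = lim H n / d^n` exists, `θ d^n ≤ H n + c/(d-1) ≤ H n + c` for all `n ∈ ℤ` (with `zpow`), and similarly `η = lim H(-n) / e^n`, `η ≤ (H(-n) + c) / e^n`, `η e^(-n) ≤ H n + c` for all `n ∈ ℤ`.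
Claim: `H n ≤ max(d^n θ, e^(-n) η) + 2 c` for all `n ∈ ℤ`.  Let `H n > 2c`, `c' = c d/(d-1) ≤ 2c`.  If `H n ≤ H(n+1)/d + c`, i.e. `H(n+1) ≥ d (H n - c)`: then `H(n+1) - c' ≥ d (H n - c')`, and at `n + 1` the backward condition `H(n+1) ≤ H n / e + c` fails (`H(n+1) - c ≥ d (H n - c) - c ≥ 2 H n - 3 c > H n / 2 ≥ H n / e` as `H n > 2 c`), so the forward one holds
again and `H(n+1) > H n > 2c`; by induction `H(n+j) - c' ≥ d^j (H n - c')`, so `d^n θ ≥ H n - c'`.  Otherwise `H n ≤ H(n-1)/e + c` and in the same way `e^(-n) η ≥ H n - c e/(e-1)`.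
The last claims: `η, θ ≤ H 0 + c` (`n = 0`), `H n / d^n ≤ θ + (η e^(-n) + 2c)/d^n ≤ θ + (H 0 + 3c)/d^n`. -/
def S_SEQ : Prop := ∀ (d e c : ℝ) (H : ℤ → ℝ), 2 ≤ d → 2 ≤ e → 0 ≤ c → (∀ n, 0 ≤ H n) →
  (∀ n, H (n + 1) ≤ d * H n + c) → (∀ n, H (n - 1) ≤ e * H n + c) →
  (∀ n, H n ≤ max (H (n + 1) / d) (H (n - 1) / e) + c) →
    ∃ θ η : ℝ, 0 ≤ θ ∧ 0 ≤ η ∧ ∀ n : ℕ,
      d ^ n * θ ≤ H n + c ∧ (1 / e) ^ n * η ≤ H n + c ∧ H n ≤ d ^ n * θ + (1 / e) ^ n * η + 2 * c ∧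
      θ ≤ (H n + c) / d ^ n ∧ H n / d ^ n ≤ θ + (H 0 + 3 * c) / d ^ n ∧
      η ≤ (H (-n) + c) / e ^ n ∧ H (-n) / e ^ n ≤ η + (H 0 + 3 * c) / e ^ n

/-- PACKET ABIG (1 h): the orbit in the affine space.

PROOF.  `y 0 = x 0` as a vector over `F = K(x_0)` (the ratios of `aff (x 0)` contain the `x_0 i = x_0 i / 1`), `y (n+1) = p(y n)`, `y (-n-1) = q(y (-n))`; `p ∘ q = q ∘ p = id` gives both relations for all `n ∈ ℤ`.  `K(y_(n+1)) ⊆ K(y_n) ⊆ K(y_(n+1))` (polynomials over `K`), so all `K(y_n) = F`.  (`Int.induction_on`, or `y n = (equivalence)^n (y 0)` for the permutation of `F^N` given by `p`.) -/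
def S_ABIG : Prop := ∀ (K : Type) [Field K] [NumberField K] [Algebra K ℂ] (N : ℕ)
  (p q : Fin N → MvPolynomial (Fin N) K) (x : ℕ → Fin N → ℂ) (F : IntermediateField K ℂ),
  (∀ i, aeval p (q i) = X i) → (∀ i, aeval q (p i) = X i) → (∀ n i, x (n + 1) i = aeval (x n) (p i)) →
  F = ratioField K (aff (x 0)) →
    ∃ (y : ℤ → Fin N → F) (Z : ℤ → BV F N), (∀ n, (Z n).1 = Fin.cons 1 (y n)) ∧
      (∀ n : ℕ, cv (Z n).1 = aff (x n)) ∧ (∀ n i, y (n + 1) i = aeval (y n) (p i)) ∧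
      ∀ n i, y (n - 1) i = aeval (y n) (q i)

end Pool.Agent.Helper80.AD
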