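import Pool.Agent.Helper80.HD.GoalsC
import Pool.Agent.Helper80.AD.Stmt

/-!
# Project AD (MP_6af536_nt): common definitions of the proof.
-/

set_option autoImplicit false

open MvPolynomial Filter Topology

noncomputable section

namespace Pool.Agent.Helper80.AD

open Pool.Agent.Helper80.HD

/-! ## Part 1: abstract multilinear forms -/

section abstr

variable {B P : Type}

/-- `∑_b c_b h(b)` -/
def hc (h : B → P → ℝ) (c : B →₀ ℝ) (v : P) : ℝ := c.sum fun b r => r * h b v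

/-- `f ≤ g` modulo the principal functions `Pr` -/
def Le' (Pr : AddSubgroup (P → ℝ)) (f g : P → ℝ) : Prop :=
  ∃ m : ℕ, 0 < m ∧ ∃ p ∈ Pr, ∀ v, (m : ℝ) * f v + p v ≤ m * g v

/-- multilinear extension of `E : B^{k+1} → ℝ` to finitely supported real combinations -/
def EE {k : ℕ} (E : (Fin (k + 1) → B) → ℝ) (c : Fin (k + 1) → B →₀ ℝ) : ℝ :=
  ∑ J ∈ Fintype.piFinset (fun j => (c j).support), (∏ j, c j (J j)) * E J

/-- A symmetric nonnegative function `E` on `B^{k+1}`, which is nonnegative on the integral combinations (in one slot) that are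
nonnegative modulo the principal functions. -/
structure MF (k : ℕ) (h : B → P → ℝ) (Pr : AddSubgroup (P → ℝ)) (E : (Fin (k + 1) → B) → ℝ) : Prop where
  sym : ∀ (σ : Equiv.Perm (Fin (k + 1))) (Y : Fin (k + 1) → B), E (Y ∘ σ) = E Y
  nn : ∀ Y, 0 ≤ E Y
  hn : ∀ b v, 0 ≤ h b v
  pos : ∀ (m : ℕ) (a : Fin m → ℤ) (b : Fin m → B) (p : P → ℝ), p ∈ Pr →
    (∀ v, p v ≤ ∑ i, (a i : ℝ) * h (b i) v) → ∀ z : Fin k → B,
      0 ≤ ∑ i, (a i : ℝ) * E (Fin.cons (b i) z : Fin (k + 1) → B)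

/-- `u` is a limit of nonnegative combinations of the `h(b)` (modulo the principal functions, from above) -/
def LNef (h : B → P → ℝ) (Pr : AddSubgroup (P → ℝ)) (ref : B →₀ ℝ) (u : P → ℝ) : Prop :=
  ∀ ε : ℝ, 0 < ε → ∃ c : B →₀ ℝ, (∀ b, 0 ≤ c b) ∧ Le' Pr u (hc h c) ∧
    Le' Pr (hc h c) (fun v => u v + ε * hc h ref v)

/-- The approximate data.  `h`: local heights, `cst`: a function of the places (constants), `sq`: squaring,
`E₀`: approximate mixed heights, `D`: mixed degrees, `G`: the global size of the constants. -/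
structure ApxData (k : ℕ) (h : B → P → ℝ) (cst : P → ℝ) (Pr : AddSubgroup (P → ℝ)) (sq : B → B)
    (E₀ : (Fin (k + 1) → B) → ℝ) (D : (Fin k → B) → ℝ) (G : ℝ) : Prop where
  hn : ∀ b v, 0 ≤ h b v
  cn : ∀ v, 0 ≤ cst v
  Gn : 0 ≤ G
  sqh : ∀ b v, h (sq b) v = 2 * h b v
  symE : ∀ (σ : Equiv.Perm (Fin (k + 1))) (Y : Fin (k + 1) → B), E₀ (Y ∘ σ) = E₀ Y
  symD : ∀ (σ : Equiv.Perm (Fin k)) (Z : Fin k → B), D (Z ∘ σ) = D Z
  E0 : ∀ Y, 0 ≤ E₀ Y
  D1 : ∀ Z, 1 ≤ D Z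
  est : ∀ (m : ℕ) (a : Fin (m + 1) → ℤ), ∃ C : ℝ, 0 ≤ C ∧ ∀ (b : Fin (m + 1) → B) (t : ℤ) (p : P → ℝ), p ∈ Pr →
    (∀ v, p v ≤ ∑ i, (a i : ℝ) * h (b i) v + t * cst v) → ∀ z : Fin k → B,
      -(t * G * D z + C * (D z + ∑ i, ∑ l : Fin k,
        D (fun s => (Fin.cons (b i) z : Fin (k + 1) → B) (l.succ.succAbove s)))) ≤
        ∑ i, (a i : ℝ) * E₀ (Fin.cons (b i) z : Fin (k + 1) → B)
  deg : ∀ (m : ℕ) (a : Fin (m + 1) → ℤ) (b : Fin (m + 1) → B) (t : ℤ) (p : P → ℝ), p ∈ Pr →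
    (∀ v, p v ≤ ∑ i, (a i : ℝ) * h (b i) v + t * cst v) → ∀ (z : Fin k → B) (l : Fin k),
      0 ≤ ∑ i, (a i : ℝ) * D (Function.update z l (b i))

/-- The exact data: `E` is the exact mixed height. -/
structure ExData (k : ℕ) (h : B → P → ℝ) (cst : P → ℝ) (Pr : AddSubgroup (P → ℝ))
    (E₀ : (Fin (k + 1) → B) → ℝ) (D : (Fin k → B) → ℝ) (G : ℝ) (E : (Fin (k + 1) → B) → ℝ) (C : ℝ) : Prop where
  hn : ∀ b v, 0 ≤ h b v
  cn : ∀ v, 0 ≤ cst v
  Gn : 0 ≤ G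
  C0 : 0 ≤ C
  symE : ∀ (σ : Equiv.Perm (Fin (k + 1))) (Y : Fin (k + 1) → B), E (Y ∘ σ) = E Y
  symD : ∀ (σ : Equiv.Perm (Fin k)) (Z : Fin k → B), D (Z ∘ σ) = D Z
  E0 : ∀ Y, 0 ≤ E Y
  D1 : ∀ Z, 1 ≤ D Z
  cmp : ∀ Y, |E Y - E₀ Y| ≤ C * ∑ i : Fin (k + 1), D (fun s => Y (i.succAbove s))
  pos : ∀ (m : ℕ) (a : Fin (m + 1) → ℤ) (b : Fin (m + 1) → B) (t : ℤ) (p : P → ℝ), p ∈ Pr →
    (∀ v, p v ≤ ∑ i, (a i : ℝ) * h (b i) v + t * cst v) → ∀ z : Fin k → B,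
      0 ≤ ∑ i, (a i : ℝ) * E (Fin.cons (b i) z : Fin (k + 1) → B) + t * G * D z
  deg : ∀ (m : ℕ) (a : Fin (m + 1) → ℤ) (b : Fin (m + 1) → B) (t : ℤ) (p : P → ℝ), p ∈ Pr →
    (∀ v, p v ≤ ∑ i, (a i : ℝ) * h (b i) v + t * cst v) → ∀ (z : Fin k → B) (l : Fin k),
      0 ≤ ∑ i, (a i : ℝ) * D (Function.update z l (b i))

/-- the local heights of the elements of `Option B`; `none` stands for the function `cst` -/
def hO (h : B → P → ℝ) (cst : P → ℝ) (o : Option B) (v : P) : ℝ := o.elim (cst v) fun b => h b v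

end abstr

/-! ## Part 2: fields and places -/

section places

variable {K : Type} [Field K] [Algebra K ℂ] {F : IntermediateField K ℂ}

/-- a vector over `F` as a complex vector -/
def cv {M : ℕ} (y : Fin (M + 1) → F) : Fin (M + 1) → ℂ := fun j => (y j : ℂ)

variable (F)

/-- The places of `F`: the nonarchimedean absolute values and the ones given by the embeddings in `ℂ`. -/
def Place : Type := {v : AbsoluteValue F ℝ // IsNonarchimedean v ∨ ∃ ι : F →+* ℂ, ∀ c, v c = ‖ι c‖}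

/-- The normalized vectors `y` over `F` with `F` algebraic over `K(y)`. -/
def BV (M : ℕ) : Type := {y : Fin (M + 1) → F // Big K F (cv y) ∧ ∃ j, y j = 1}

/-- local height of a vector -/
def hV {M : ℕ} (b : BV F M) (v : Place F) : ℝ := Real.log (vn v.1 b.1)

open Classical in
/-- the constants as a function of the places of `F` -/
def cst (Γ : AbsoluteValue K ℝ → ℝ) (Γ' : ℝ) (v : Place F) : ℝ :=
  if IsNonarchimedean v.1 then Real.log (Γ (v.1.comp (algebraMap K F).injective)) else Γ'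

/-- the principal functions `v ↦ log v(g)`, `g ∈ F^*` -/
def Pr : AddSubgroup (Place F → ℝ) where
  carrier := {p | ∃ g : F, g ≠ 0 ∧ ∀ v, p v = Real.log (v.1 g)}
  zero_mem' := ⟨1, one_ne_zero, fun v => by simp⟩
  add_mem' := by
    rintro p q ⟨g, hg, hp⟩ ⟨g', hg', hq⟩
    refine ⟨g * g', mul_ne_zero hg hg', fun v => ?_⟩
    rw [Pi.add_apply, hp, hq, map_mul, Real.log_mul ((v.1.pos hg).ne') ((v.1.pos hg').ne')]
  neg_mem' := by
    rintro p ⟨g, hg, hp⟩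
    refine ⟨g⁻¹, inv_ne_zero hg, fun v => ?_⟩
    rw [Pi.neg_apply, hp, map_inv₀, Real.log_inv]

variable (K)

open Height in
/-- the global size of the constants -/
def gt [NumberField K] (Γ : AbsoluteValue K ℝ → ℝ) (Γ' : ℝ) : ℝ :=
  (Multiset.card (AdmissibleAbsValues.archAbsVal (K := K)) : ℝ) * Γ' +
    ∑ᶠ v : AdmissibleAbsValues.nonarchAbsVal (K := K), Real.log (Γ v.1)

variable {K}

/-- `lh(cyc(Y))` for vectors over `F` -/
def E₀ {k M : ℕ} [NumberField K] (Y : Fin (k + 1) → BV F M) : ℝ := lh (cyc K F (fun i => cv (Y i).1))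

/-- the block degree -/
def bd {k M : ℕ} (i : Fin (k + 1)) (Y : Fin (k + 1) → BV F M) : ℕ := bdeg i (cyc K F (fun i => cv (Y i).1))

end places

end Pool.Agent.Helper80.AD
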