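import Pool.Agent.Helper80.AD.GoalsA
import Pool.Agent.Helper80.AD.GoalsB
import Pool.Agent.Helper80.AD.Le
import Pool.Agent.Helper80.HD.Final

/-!
# Project AD: the growth of the arithmetic degrees of a sequence of points with controlled local heights
-/

set_option autoImplicit false

open MvPolynomial Filter Topology

noncomputable section

namespace Pool.Agent.Helper80.AD

open Pool.Agent.Helper80.HD

section gtpos

open Height

theorem card_arch_pos (K : Type) [Field K] [NumberField K] :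
    0 < Multiset.card (AdmissibleAbsValues.archAbsVal (K := K)) := by
  obtain ⟨w⟩ := (inferInstance : Nonempty (NumberField.InfinitePlace K))
  rw [Multiset.card_pos_iff_exists_mem]
  exact ⟨w.1, NumberField.mem_multisetInfinitePlace.2 w.2⟩

theorem gt_pos (K : Type) [Field K] [NumberField K] {Γ : AbsoluteValue K ℝ → ℝ} {Γ' : ℝ} (hΓ : GoodGam K Γ)
    (hΓ' : 1 ≤ Γ') : 0 < gt K Γ Γ' := by
  unfold gt
  have h1 : (1 : ℝ) ≤ Multiset.card (AdmissibleAbsValues.archAbsVal (K := K)) := by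
    exact_mod_cast card_arch_pos K
  have h2 : 0 ≤ ∑ᶠ v : AdmissibleAbsValues.nonarchAbsVal (K := K), Real.log (Γ v.1) :=
    finsum_nonneg fun v => Real.log_nonneg (hΓ.1 v.1)
  nlinarith

end gtpos

/-- the hypotheses on the local heights of a sequence -/
structure LocGrowth {K : Type} [Field K] [Algebra K ℂ] (F : IntermediateField K ℂ) {M : ℕ}
    (Γ : AbsoluteValue K ℝ → ℝ) (Γ' : ℝ) (X : ℕ → BV F M) {ι : Type} [Fintype ι] (u : ι → Place F → ℝ)
    (ref : Option (BV F M) →₀ ℝ) (lam : ι → ℝ) (κ : ℕ → ℝ) : Prop where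
  refn : ∀ b, 0 ≤ ref b
  un : ∀ i v, 0 ≤ u i v
  lnef : ∀ i, LNef (hO (hV F) (cst F Γ Γ')) (Pr F) ref (u i)
  lamp : ∀ i, 0 < lam i
  κ1 : ∀ n, 1 ≤ κ n
  upper : ∀ n i, Le' (Pr F) (fun v => lam i ^ n * u i v) (fun v => κ n * (hV F (X n) v + cst F Γ Γ' v))
  lower : ∀ n, Le' (Pr F) (fun v => hV F (X n) v) (fun v => κ n * (∑ i, lam i ^ n * u i v + cst F Γ Γ' v))

theorem fin0 (hAPX : S_APX) (hEXA : S_EXA) (hPLUS : S_PLUS) (hABS : S_ABS) (hEEB : S_EEB)
    (hSYM : S_SYM) (hDEP : S_DEP) (hRES : S_RES) (hHOM : S_HOM) (hTDG : S_TDG) (hCMP : S_CMP) (hLHD : S_LHD)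
    {K : Type} [Field K] [NumberField K] [Algebra K ℂ] {F : IntermediateField K ℂ} {k M : ℕ}
    {Γ : AbsoluteValue K ℝ → ℝ} {Γ' : ℝ} {X : ℕ → BV F M} (hF : F = ratioField K (cv (X 0).1))
    (htr : Algebra.trdeg K F = k) (hΓ : GoodGam K Γ) (hΓ' : 1 ≤ Γ') {ι : Type} [Fintype ι]
    {u : ι → Place F → ℝ} {ref : Option (BV F M) →₀ ℝ} {lam : ι → ℝ} {κ : ℕ → ℝ}
    (hg : LocGrowth F Γ Γ' X u ref lam κ) :
    ∃ α : ℝ, 0 < α ∧ (∃ j : ℕ, (j = k ∨ j = k + 1) ∧ ∃ l : Fin j → ι, α = ∏ i, lam (l i)) ∧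
      ∃ c₁ c₂ : ℝ, 0 < c₁ ∧ 0 < c₂ ∧ ∀ n : ℕ,
        c₁ * α ^ n ≤ κ n ^ (k + 1) * arithDeg K k (fun n => cv (X n).1) n ∧
        arithDeg K k (fun n => cv (X n).1) n ≤ c₂ * κ n ^ (k + 1) * α ^ n ∧
        c₁ ≤ arithDeg K k (fun n => cv (X n).1) n := by
  have : Nonempty (BV F M) := ⟨X 0⟩
  have hFG : F.FG := by rw [hF]; exact ratioField_fg K _
  have hgt := gt_pos K hΓ hΓ'
  obtain ⟨sq, D, hApx, hbd⟩ := hAPX K F k M Γ Γ' hFG htr hΓ (zero_le_one.trans hΓ')
  obtain ⟨E, C, hEx⟩ := hEXA k _ _ _ _ _ _ _ _ _ hApx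
  obtain ⟨E', hMF, h1, h2, h3⟩ := hPLUS k _ _ _ _ _ _ _ _ _ _ hEx
  -- the value
  obtain ⟨b, hb⟩ : ∃ b : ℕ → ℝ, b = fun n =>
    EE E' (fun _ => Finsupp.single (some (X n)) 1 + Finsupp.single none 1) := ⟨_, rfl⟩
  have hbn : ∀ n, b n = E (fun _ => X n) + (k + 1) * (gt K Γ Γ' * D (fun _ => X n)) := by
    intro n
    rw [hb]
    show EE E' (fun _ => Finsupp.single (some (X n)) 1 + Finsupp.single none 1) = _
    rw [hEEB k _ E' h3 (X n)]
    have e1 := h1 (fun _ => X n)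
    have e2 := fun i => h2 (fun _ => X n) i
    rw [e1, Finset.sum_congr rfl fun i _ => e2 i]
    simp
  have hD1 : ∀ n, 1 ≤ D (fun _ => X n) := fun n => hEx.D1 _
  have hE0 : ∀ n, 0 ≤ E (fun _ => X n) := fun n => hEx.E0 _
  have hk1 : (0 : ℝ) < (k : ℝ) + 1 := by positivity
  have hb0 : ∀ n, 0 < b n := by
    intro n
    rw [hbn]
    have := mul_pos hk1 (mul_pos hgt (zero_lt_one.trans_le (hD1 n)))
    linarith [hE0 n]
  -- comparison with the arithmetic degree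
  have hB : ∀ n, Big K F (cv (X n).1) := fun n => (X n).2.1
  obtain ⟨C₁, hC₁, hcmp⟩ := arithDeg_cmp (x := fun n => cv (X n).1) hSYM hDEP hRES hHOM hTDG hCMP hLHD hF hFG htr hB
  have hDD : ∀ n, DD F (fun n => cv (X n).1) (fun _ : Fin k => n) = D (fun _ => X n) := by
    intro n
    have e1 := bdeg_eq (x := fun n => cv (X n).1) hSYM hDEP hFG htr hB (fun _ : Fin (k + 1) => n) 0
    rw [← e1]
    exact hbd (fun _ => X n) 0
  have hEE : ∀ n, HD.EE F (fun n => cv (X n).1) k (fun _ => n) = E₀ F (fun _ : Fin (k + 1) => X n) := fun n => rfl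
  have hcmpE : ∀ n, |E (fun _ => X n) - E₀ F (fun _ : Fin (k + 1) => X n)| ≤ C * ((k + 1) * D (fun _ => X n)) := by
    intro n
    have := hEx.cmp (fun _ => X n)
    simpa using this
  obtain ⟨g, hgd⟩ : ∃ g, g = gt K Γ Γ' := ⟨_, rfl⟩
  rw [← hgd] at hgt hbn
  -- b ≤ C₂ arithDeg
  have hup : ∀ n, b n ≤ (1 + (k + 1) * (C + g)) * C₁ * arithDeg K k (fun n => cv (X n).1) n := by
    intro n
    have e1 := (abs_le.1 (hcmpE n)).2
    have e2 := (hcmp n).1
    rw [hDD, hEE] at e2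
    have e3 : 0 ≤ E₀ F (fun _ : Fin (k + 1) => X n) := hApx.E0 _
    have e4 := hD1 n
    have e5 := hEx.C0
    rw [hbn, mul_assoc]
    refine le_trans ?_ (mul_le_mul_of_nonneg_left e2 (by positivity))
    have e6 : 0 ≤ (k + 1) * (C + g) * E₀ F (fun _ : Fin (k + 1) => X n) := by positivity
    nlinarith
  -- arithDeg ≤ C₃ b
  have hlow : ∀ n, arithDeg K k (fun n => cv (X n).1) n ≤ C₁ * (1 + (1 + C * (k + 1)) / ((k + 1) * g)) * b n := by
    intro n
    have e1 := (abs_le.1 (hcmpE n)).1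
    have e2 := (hcmp n).2
    rw [hDD, hEE] at e2
    have e4 := hD1 n
    have e5 := hEx.C0
    refine e2.trans ?_
    rw [mul_assoc]
    refine mul_le_mul_of_nonneg_left ?_ (by linarith)
    have e7 : (k + 1) * g * D (fun _ => X n) ≤ b n := by
      rw [hbn]
      have := hE0 n
      linarith
    have e8 : D (fun _ => X n) ≤ b n / ((k + 1) * g) := by
      rw [le_div_iff₀ (by positivity)]
      linarith
    have e9 : E (fun _ => X n) ≤ b n := by
      rw [hbn]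
      have : 0 ≤ ((k : ℝ) + 1) * (g * D (fun _ => X n)) := by positivity
      linarith
    have e10 : (1 + C * (k + 1)) * D (fun _ => X n) ≤ (1 + C * (k + 1)) * (b n / ((k + 1) * g)) :=
      mul_le_mul_of_nonneg_left e8 (by positivity)
    calc E₀ F (fun _ : Fin (k + 1) => X n) + D (fun _ => X n)
        ≤ E (fun _ => X n) + (1 + C * (k + 1)) * D (fun _ => X n) := by linarith
      _ ≤ b n + (1 + C * (k + 1)) * (b n / ((k + 1) * g)) := add_le_add e9 e10
      _ = (1 + (1 + C * (k + 1)) / ((k + 1) * g)) * b n := by ring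
  obtain ⟨α, hα, hval, c₁, c₂, hc₁, hgr⟩ := hABS k _ _ (hV F) (cst F Γ Γ') (Pr F) E' hMF h3 ι u ref lam X κ hg.refn hg.un
    hg.lnef hg.lamp hg.κ1 hg.upper hg.lower (by have := hb0 0; rw [hb] at this; exact this)
  have hC0 := hEx.C0
  have hA1 : 0 < (1 + (k + 1) * (C + g)) * C₁ := by positivity
  have hA2 : 0 < C₁ * (1 + (1 + C * (k + 1)) / ((k + 1) * g)) := by positivity
  have hgr' : ∀ n, c₁ * α ^ n ≤ κ n ^ (k + 1) * b n ∧ b n ≤ c₂ * κ n ^ (k + 1) * α ^ n := by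
    rw [hb]
    exact hgr
  have hκ0 : ∀ n, 0 < κ n ^ (k + 1) := fun n => pow_pos (zero_lt_one.trans_le (hg.κ1 n)) _
  have hc₂ : 0 < c₂ := by
    have e1 := (hb0 0).trans_le (hgr' 0).2
    simp only [pow_zero, mul_one] at e1
    exact pos_of_mul_pos_left e1 (hκ0 0).le
  have hm1 : 0 < min c₁ ((k + 1) * g) := lt_min hc₁ (by positivity)
  refine ⟨α, hα, hval, min c₁ ((k + 1) * g) / ((1 + (k + 1) * (C + g)) * C₁),
    C₁ * (1 + (1 + C * (k + 1)) / ((k + 1) * g)) * c₂,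
    by positivity, by positivity, fun n => ⟨?_, ?_, ?_⟩⟩
  · rw [div_mul_eq_mul_div, div_le_iff₀ hA1]
    have e1 := mul_le_mul_of_nonneg_left (hup n) (hκ0 n).le
    have e2 : min c₁ ((k + 1) * g) * α ^ n ≤ c₁ * α ^ n :=
      mul_le_mul_of_nonneg_right (min_le_left _ _) (by positivity)
    refine e2.trans ((hgr' n).1.trans (e1.trans (le_of_eq ?_)))
    ring
  · have e1 := mul_le_mul_of_nonneg_left (hgr' n).2 hA2.le
    refine (hlow n).trans (e1.trans (le_of_eq ?_))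
    ring
  · rw [div_le_iff₀ hA1]
    have e1 := hup n
    have e2 : (k + 1) * g ≤ b n := by
      rw [hbn]
      have e3 := hE0 n
      have e4 : (k + 1) * g * 1 ≤ (k + 1) * g * D (fun _ => X n) :=
        mul_le_mul_of_nonneg_left (hD1 n) (by positivity)
      linarith
    have e3 := min_le_right c₁ ((k + 1) * g)
    linarith

end Pool.Agent.Helper80.AD
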